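import Mathlib
import Pool.Agent.Lib_helper69.HKL.DefsL
import Pool.Agent.Lib_helper69.QG.W.fa
import Pool.Agent.Lib_helper69.QG.W.pd
import Pool.Agent.Lib_helper69.QG.W.pe

set_option autoImplicit false

namespace HK

open MeasureTheory QG

theorem wh_cont : Continuous wh := by
  unfold wh osc
  apply Continuous.max continuous_const
  apply Continuous.sub continuous_const
  apply Continuous.sub
  · exact Continuous.finset_sup'_apply _ (fun i _ => continuous_apply i)
  · exact Continuous.finset_inf'_apply _ (fun i _ => continuous_apply i)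

theorem mb_osc_le (t : Fin 4 → ℝ) (i j : Fin 4) : t i - t j ≤ osc t := by
  unfold osc
  have h1 := Finset.le_sup' t (Finset.mem_univ i)
  have h2 := Finset.inf'_le t (Finset.mem_univ j)
  linarith

theorem mb_osc_eq (t : Fin 4 → ℝ) : ∃ i j : Fin 4, osc t = t i - t j := by
  obtain ⟨i, _, hi⟩ := Finset.exists_mem_eq_sup' Finset.univ_nonempty t
  obtain ⟨j, _, hj⟩ := Finset.exists_mem_eq_inf' Finset.univ_nonempty t
  exact ⟨i, j, by unfold osc; rw [hi, hj]⟩

theorem wh_basic (t : Fin 4 → ℝ) : 0 ≤ wh t ∧ wh t ≤ 2 ∧ (∀ r : ℝ, wh (fun i => t i + r) = wh t) ∧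
    wh (fun i => - t i) = wh t ∧ (0 < wh t ↔ ∀ i j, |t i - t j| < 2) := by
  have h0 : 0 ≤ osc t := by
    have := mb_osc_le t 0 0
    linarith
  refine ⟨le_max_left _ _, ?_, ?_, ?_, ?_⟩
  · unfold wh
    exact max_le (by norm_num) (by linarith)
  · intro r
    unfold wh
    have h1 : osc (fun i => t i + r) = osc t := by
      apply le_antisymm
      · obtain ⟨i, j, hij⟩ := mb_osc_eq (fun i => t i + r)
        rw [hij]
        have := mb_osc_le t i j
        linarith
      · obtain ⟨i, j, hij⟩ := mb_osc_eq t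
        rw [hij]
        have := mb_osc_le (fun i => t i + r) i j
        linarith
    rw [h1]
  · unfold wh
    have h1 : osc (fun i => - t i) = osc t := by
      apply le_antisymm
      · obtain ⟨i, j, hij⟩ := mb_osc_eq (fun i => - t i)
        rw [hij]
        have := mb_osc_le t j i
        linarith
      · obtain ⟨i, j, hij⟩ := mb_osc_eq t
        rw [hij]
        have := mb_osc_le (fun i => - t i) j i
        linarith
    rw [h1]
  · unfold wh
    constructor
    · intro h i j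
      rcases lt_max_iff.1 h with h1 | h1
      · exact absurd h1 (lt_irrefl _)
      · have a1 := mb_osc_le t i j
        have a2 := mb_osc_le t j i
        rw [abs_lt]
        constructor <;> linarith
    · intro h
      apply lt_max_of_lt_right
      obtain ⟨i, j, hij⟩ := mb_osc_eq t
      have := (abs_lt.1 (h i j)).2
      linarith

theorem mb_wt (n : ℕ) [NeZero n] (a : Ev n → ℝ) :
    wt wh (cn n) 0 a = ∏ v, wh (loc (cn n) a v) := by
  unfold wt dot
  simp

theorem mb_cell (n : ℕ) [NeZero n] {a : Ev n → ℝ} (h : wt wh (cn n) 0 a ≠ 0) (v : Od n)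
    (i j : Fin 4) : |a (cn n v i) - a (cn n v j)| < 2 := by
  rw [mb_wt, Finset.prod_ne_zero_iff] at h
  have h1 := h v (Finset.mem_univ v)
  have h2 := wh_basic (loc (cn n) a v)
  exact h2.2.2.2.2.1 (lt_of_le_of_ne h2.1 (Ne.symm h1)) i j

theorem mb_corner (n : ℕ) (x : Ev n) (a b i j : ℤ) (hi : i = a ∨ i = a + 1)
    (hj : j = b ∨ j = b + 1) : ∃ k : Fin 4, ch n x i j = cn n (cc n x a b) k := by
  rw [cn_cc]
  rcases hi with rfl | rfl <;> rcases hj with rfl | rfl
  · exact ⟨0, rfl⟩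
  · exact ⟨3, rfl⟩
  · exact ⟨2, rfl⟩
  · exact ⟨1, rfl⟩

theorem mb_step (n : ℕ) [NeZero n] {a : Ev n → ℝ} (h : wt wh (cn n) 0 a ≠ 0) (x : Ev n)
    (i j i' j' : ℤ) (hi : i' = i - 1 ∨ i' = i ∨ i' = i + 1) (hj : j' = j - 1 ∨ j' = j ∨ j' = j + 1) :
    |a (ch n x i j) - a (ch n x i' j')| < 2 := by
  obtain ⟨a0, ha, ha'⟩ : ∃ a0 : ℤ, (i = a0 ∨ i = a0 + 1) ∧ (i' = a0 ∨ i' = a0 + 1) := by
    rcases hi with h1 | h1 | h1
    · exact ⟨i - 1, by omega, by omega⟩
    · exact ⟨i, by omega, by omega⟩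
    · exact ⟨i, by omega, by omega⟩
  obtain ⟨b0, hb, hb'⟩ : ∃ b0 : ℤ, (j = b0 ∨ j = b0 + 1) ∧ (j' = b0 ∨ j' = b0 + 1) := by
    rcases hj with h1 | h1 | h1
    · exact ⟨j - 1, by omega, by omega⟩
    · exact ⟨j, by omega, by omega⟩
    · exact ⟨j, by omega, by omega⟩
  obtain ⟨k, hk⟩ := mb_corner n x a0 b0 i j ha hb
  obtain ⟨k', hk'⟩ := mb_corner n x a0 b0 i' j' ha' hb'
  rw [hk, hk']
  exact mb_cell n h _ k k'

theorem mb_walk (n : ℕ) [NeZero n] {a : Ev n → ℝ} (h : wt wh (cn n) 0 a ≠ 0) (x : Ev n) (m : ℕ) :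
    ∀ i j : ℤ, max i.natAbs j.natAbs = m → |a (ch n x i j) - a (ch n x 0 0)| ≤ 2 * m := by
  induction m with
  | zero =>
    intro i j hm
    have h1 : i = 0 := by omega
    have h2 : j = 0 := by omega
    rw [h1, h2, sub_self, abs_zero]
    simp
  | succ m ih =>
    intro i j hm
    obtain ⟨i', hi, hi'⟩ : ∃ i' : ℤ, (i' = i - 1 ∨ i' = i ∨ i' = i + 1) ∧
        i'.natAbs = i.natAbs - 1 := by
      rcases lt_trichotomy i 0 with h1 | h1 | h1
      · exact ⟨i + 1, by omega, by omega⟩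
      · exact ⟨i, by omega, by omega⟩
      · exact ⟨i - 1, by omega, by omega⟩
    obtain ⟨j', hj, hj'⟩ : ∃ j' : ℤ, (j' = j - 1 ∨ j' = j ∨ j' = j + 1) ∧
        j'.natAbs = j.natAbs - 1 := by
      rcases lt_trichotomy j 0 with h1 | h1 | h1
      · exact ⟨j + 1, by omega, by omega⟩
      · exact ⟨j, by omega, by omega⟩
      · exact ⟨j - 1, by omega, by omega⟩
    have h1 := ih i' j' (by omega)
    have h2 := mb_step n h x i j i' j' hi hj
    have h3 : a (ch n x i j) - a (ch n x 0 0) = (a (ch n x i j) - a (ch n x i' j')) +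
      (a (ch n x i' j') - a (ch n x 0 0)) := by ring
    rw [h3]
    refine (abs_add_le _ _).trans ?_
    push_cast
    linarith

theorem mb_ch0 (n : ℕ) (x : Ev n) : ch n x 0 0 = x := by
  apply Subtype.ext
  unfold ch
  simp

/-- on the support the field is a Lipschitz function -/
theorem lip_of_wt (n : ℕ) [NeZero n] {a : Ev n → ℝ} (h : wt wh (cn n) 0 a ≠ 0) (x y : Ev n) :
    |a x - a y| ≤ 2 * (lv n x y : ℝ) := by
  obtain ⟨i, j, h1, h2⟩ := ch_surj n x y
  have h3 := mb_walk n h x _ i j h2.symm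
  rw [h1, mb_ch0] at h3
  rw [abs_sub_comm]
  exact h3

theorem mb_cont (n : ℕ) [NeZero n] : Continuous (fun a : Ev n → ℝ => wt wh (cn n) 0 a) := by
  have h1 : (fun a : Ev n → ℝ => wt wh (cn n) 0 a) = fun a => ∏ v, wh (loc (cn n) a v) := by
    funext a
    exact mb_wt n a
  rw [h1]
  apply continuous_finsetProd
  intro v _
  apply wh_cont.comp
  unfold loc
  exact continuous_pi (fun i => continuous_apply _)

/-- the weight is integrable with a positive integral -/
theorem wt_int_h (n : ℕ) [NeZero n] (p : Ev n) :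
    Integrable (fun a => wt wh (cn n) 0 a) (bs p) ∧ 0 < Zt wh (cn n) p 0 := by
  obtain ⟨e⟩ : Nonempty (Fin (Fintype.card {y : Ev n // y ≠ p}) ≃ {y : Ev n // y ≠ p}) :=
    ⟨(Fintype.equivFin _).symm⟩
  have hc : Continuous (fun x => wt wh (cn n) 0 (up e x)) := (mb_cont n).comp (fa_cont e)
  obtain ⟨R, hR⟩ : ∃ R : ℝ, ∀ y : Ev n, 2 * (lv n p y : ℝ) ≤ R := by
    obtain ⟨R, hR⟩ := (Set.finite_range (fun y : Ev n => 2 * (lv n p y : ℝ))).bddAbove
    exact ⟨R, fun y => hR ⟨y, rfl⟩⟩
  have hs : HasCompactSupport (fun x => wt wh (cn n) 0 (up e x)) := by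
    apply HasCompactSupport.of_support_subset_isCompact (K := Set.Icc (fun _ => -R) (fun _ => R))
      isCompact_Icc
    intro x hx
    have h1 : ∀ k, |x k| ≤ R := by
      intro k
      have h2 := lip_of_wt n hx p (e k)
      rw [fa_p, fa_e, zero_sub, abs_neg] at h2
      exact h2.trans (hR _)
    exact ⟨fun k => (abs_le.1 (h1 k)).1, fun k => (abs_le.1 (h1 k)).2⟩
  have hnn : ∀ a : Ev n → ℝ, 0 ≤ wt wh (cn n) 0 a := by
    intro a
    rw [mb_wt]
    exact Finset.prod_nonneg (fun v _ => (wh_basic _).1)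
  constructor
  · rw [← (up_mp e).integrable_comp_emb (up_emb e)]
    exact hc.integrable_of_hasCompactSupport hs
  · unfold Zt
    rw [← (up_mp e).integral_comp (up_emb e)]
    apply hc.integral_pos_of_hasCompactSupport_nonneg_nonzero hs (fun x => hnn _) (x := 0)
    rw [mb_wt, Finset.prod_ne_zero_iff]
    intro v _
    apply ne_of_gt
    rw [(wh_basic _).2.2.2.2]
    intro i j
    have h1 : ∀ y : Ev n, up e 0 y = 0 := by
      intro y
      unfold up
      split_ifs <;> simp
    unfold loc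
    rw [h1, h1]
    norm_num

end HK
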