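import Mathlib
import Pool.Agent.Lib_helper69.HKL.DefsL

set_option autoImplicit false

namespace HK

open MeasureTheory QG

theorem pv_kv (n m : ℕ) [NeZero n] (S : Finset (ℤ × ℤ)) (l : ℤ × ℤ → ℝ) (a : Ev n → ℝ) :
    dot (kv n m S l) a = pv S l (kf n m a) := by
  unfold dot kv pv kf
  simp only [Finset.sum_mul]
  rw [Finset.sum_comm]
  refine Finset.sum_congr rfl fun k _ => ?_
  simp only [ite_mul, zero_mul]
  rw [Finset.sum_ite_eq]
  simp

theorem n1_kv (n m : ℕ) [NeZero n] (S : Finset (ℤ × ℤ)) (l : ℤ × ℤ → ℝ) :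
    ∑ y, |kv n m S l y| ≤ n1 S l ∧ ∑ y, kv n m S l y = ∑ k ∈ S, l k := by
  constructor
  · unfold kv n1
    calc ∑ y, |∑ k ∈ S, if ke n m k = y then l k else 0|
        ≤ ∑ y, ∑ k ∈ S, |if ke n m k = y then l k else 0| :=
          Finset.sum_le_sum fun y _ => Finset.abs_sum_le_sum_abs _ _
      _ = ∑ k ∈ S, ∑ y, |if ke n m k = y then l k else 0| := Finset.sum_comm
      _ = ∑ k ∈ S, |l k| := by
          refine Finset.sum_congr rfl fun k _ => ?_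
          have h : ∀ y : Ev n, |if ke n m k = y then l k else 0| =
              if ke n m k = y then |l k| else 0 := by
            intro y
            split_ifs <;> simp
          simp only [h]
          rw [Finset.sum_ite_eq]
          simp
      _ ≤ ∑ k ∈ S, |l k| := le_rfl
  · unfold kv
    rw [Finset.sum_comm]
    refine Finset.sum_congr rfl fun k _ => ?_
    rw [Finset.sum_ite_eq]
    simp

/-- translation by `c` -/
def lb_emb (c : ℤ × ℤ) : ℤ × ℤ ↪ ℤ × ℤ :=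
  ⟨fun x => (c.1 + x.1, c.2 + x.2), by
    intro x y h
    have h1 := congrArg Prod.fst h
    have h2 := congrArg Prod.snd h
    simp only [add_right_inj] at h1 h2
    exact Prod.ext h1 h2⟩

theorem lb_sum_le (S : Finset (ℤ × ℤ)) (g : ℤ × ℤ → ℝ) (hg : ∀ x, 0 ≤ g x) (c : ℤ × ℤ)
    (a b M L : ℤ)
    (hS : ∀ i j : ℤ, a ≤ i → i < a + M → b ≤ j → j < b + L → (c.1 + i, c.2 + j) ∈ S) :
    ∑ i ∈ Finset.Ico a (a + M), ∑ j ∈ Finset.Ico b (b + L), g (c.1 + i, c.2 + j) ≤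
      ∑ x ∈ S, g x := by
  rw [← Finset.sum_product (f := fun x : ℤ × ℤ => g (c.1 + x.1, c.2 + x.2))]
  have h := Finset.sum_map (Finset.Ico a (a + M) ×ˢ Finset.Ico b (b + L)) (lb_emb c) g
  have h2 : ∑ x ∈ Finset.Ico a (a + M) ×ˢ Finset.Ico b (b + L), g (c.1 + x.1, c.2 + x.2) =
      ∑ x ∈ (Finset.Ico a (a + M) ×ˢ Finset.Ico b (b + L)).map (lb_emb c), g x := by
    rw [h]
    rfl
  rw [h2]
  refine Finset.sum_le_sum_of_subset_of_nonneg ?_ fun x _ _ => hg x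
  intro x hx
  rw [Finset.mem_map] at hx
  obtain ⟨y, hy, rfl⟩ := hx
  rw [Finset.mem_product, Finset.mem_Ico, Finset.mem_Ico] at hy
  exact hS y.1 y.2 hy.1.1 hy.1.2 hy.2.1 hy.2.2

/-- a square and its sides -/
theorem lb_sq4 (h : ℤ × ℤ → ℝ) (z : ℤ × ℤ) (i j : ℤ) :
    sq4 (fun i j => h (z.1 + i, z.2 + j)) i j ≤
      10 * (((h ((z.1 + i, z.2 + j) + dz 1) - h (z.1 + i, z.2 + j)) ^ 2 +
        (h ((z.1 + i, z.2 + j) + dz 2) - h (z.1 + i, z.2 + j)) ^ 2) +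
        ((h ((z.1 + 1 + i, z.2 + 1 + j) + dz 0) - h (z.1 + 1 + i, z.2 + 1 + j)) ^ 2 +
        (h ((z.1 + 1 + i, z.2 + 1 + j) + dz 3) - h (z.1 + 1 + i, z.2 + 1 + j)) ^ 2)) := by
  have e1 : ((z.1 + i, z.2 + j) : ℤ × ℤ) + dz 1 = (z.1 + (i + 1), z.2 + j) := by
    simp only [dz, Matrix.cons_val, Prod.mk_add_mk]
    ext <;> simp <;> ring
  have e2 : ((z.1 + i, z.2 + j) : ℤ × ℤ) + dz 2 = (z.1 + i, z.2 + (j + 1)) := by
    simp only [dz, Matrix.cons_val, Prod.mk_add_mk]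
    ext <;> simp <;> ring
  have e3 : ((z.1 + 1 + i, z.2 + 1 + j) : ℤ × ℤ) + dz 0 = (z.1 + i, z.2 + (j + 1)) := by
    simp only [dz, Matrix.cons_val, Prod.mk_add_mk]
    ext <;> simp <;> ring
  have e4 : ((z.1 + 1 + i, z.2 + 1 + j) : ℤ × ℤ) + dz 3 = (z.1 + (i + 1), z.2 + j) := by
    simp only [dz, Matrix.cons_val, Prod.mk_add_mk]
    ext <;> simp <;> ring
  have e5 : ((z.1 + 1 + i, z.2 + 1 + j) : ℤ × ℤ) = (z.1 + (i + 1), z.2 + (j + 1)) := by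
    ext <;> simp <;> ring
  rw [e1, e2, e3, e4, e5]
  simp only [sq4, q, Fin.sum_univ_four, Matrix.cons_val]
  set A := h (z.1 + i, z.2 + j)
  set B := h (z.1 + (i + 1), z.2 + (j + 1))
  set C := h (z.1 + (i + 1), z.2 + j)
  set D := h (z.1 + i, z.2 + (j + 1))
  nlinarith [sq_nonneg (A - C - (C - B)), sq_nonneg (A - D - (D - B)),
    sq_nonneg (C - A - (A - D)), sq_nonneg (C - B - (B - D)), sq_nonneg (C - A),
    sq_nonneg (D - A), sq_nonneg (D - B), sq_nonneg (C - B)]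

/-- the squares are controlled by the edges -/
theorem sq4_Ez (S : Finset (ℤ × ℤ)) (h : ℤ × ℤ → ℝ) (z : ℤ × ℤ) (a b M L : ℤ)
    (hS : ∀ i j : ℤ, a ≤ i → i < a + M → b ≤ j → j < b + L → (z.1 + i, z.2 + j) ∈ S ∧
      (z.1 + (i + 1), z.2 + (j + 1)) ∈ S) :
    ∑ i ∈ Finset.Ico a (a + M), ∑ j ∈ Finset.Ico b (b + L),
      sq4 (fun i j => h (z.1 + i, z.2 + j)) i j ≤ 10 * Ez S h := by
  have h1 := lb_sum_le S (fun x => (h (x + dz 1) - h x) ^ 2 + (h (x + dz 2) - h x) ^ 2)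
    (fun x => by positivity) z a b M L (fun i j h1 h2 h3 h4 => (hS i j h1 h2 h3 h4).1)
  have h2 := lb_sum_le S (fun x => (h (x + dz 0) - h x) ^ 2 + (h (x + dz 3) - h x) ^ 2)
    (fun x => by positivity) (z.1 + 1, z.2 + 1) a b M L (fun i j h1 h2 h3 h4 => by
      have h5 := (hS i j h1 h2 h3 h4).2
      have e : ((z.1 + 1 + i, z.2 + 1 + j) : ℤ × ℤ) = (z.1 + (i + 1), z.2 + (j + 1)) := by
        ext <;> simp <;> ring
      rw [e]
      exact h5)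
  have h3 : Ez S h = ∑ x ∈ S, ((h (x + dz 1) - h x) ^ 2 + (h (x + dz 2) - h x) ^ 2) +
      ∑ x ∈ S, ((h (x + dz 0) - h x) ^ 2 + (h (x + dz 3) - h x) ^ 2) := by
    unfold Ez
    rw [← Finset.sum_add_distrib]
    refine Finset.sum_congr rfl fun x _ => ?_
    rw [Fin.sum_univ_four]
    ring
  calc ∑ i ∈ Finset.Ico a (a + M), ∑ j ∈ Finset.Ico b (b + L),
      sq4 (fun i j => h (z.1 + i, z.2 + j)) i j
      ≤ ∑ i ∈ Finset.Ico a (a + M), ∑ j ∈ Finset.Ico b (b + L),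
        10 * (((h ((z.1 + i, z.2 + j) + dz 1) - h (z.1 + i, z.2 + j)) ^ 2 +
        (h ((z.1 + i, z.2 + j) + dz 2) - h (z.1 + i, z.2 + j)) ^ 2) +
        ((h ((z.1 + 1 + i, z.2 + 1 + j) + dz 0) - h (z.1 + 1 + i, z.2 + 1 + j)) ^ 2 +
        (h ((z.1 + 1 + i, z.2 + 1 + j) + dz 3) - h (z.1 + 1 + i, z.2 + 1 + j)) ^ 2)) :=
        Finset.sum_le_sum fun i _ => Finset.sum_le_sum fun j _ => lb_sq4 h z i j
    _ = 10 * (∑ i ∈ Finset.Ico a (a + M), ∑ j ∈ Finset.Ico b (b + L),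
          ((h ((z.1 + i, z.2 + j) + dz 1) - h (z.1 + i, z.2 + j)) ^ 2 +
          (h ((z.1 + i, z.2 + j) + dz 2) - h (z.1 + i, z.2 + j)) ^ 2) +
        ∑ i ∈ Finset.Ico a (a + M), ∑ j ∈ Finset.Ico b (b + L),
          ((h ((z.1 + 1 + i, z.2 + 1 + j) + dz 0) - h (z.1 + 1 + i, z.2 + 1 + j)) ^ 2 +
          (h ((z.1 + 1 + i, z.2 + 1 + j) + dz 3) - h (z.1 + 1 + i, z.2 + 1 + j)) ^ 2)) := by
        rw [← Finset.sum_add_distrib, Finset.mul_sum]
        refine Finset.sum_congr rfl fun i _ => ?_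
        rw [← Finset.sum_add_distrib, Finset.mul_sum]
    _ ≤ 10 * Ez S h := by
        rw [h3]
        have h1' := h1
        have h2' := h2
        linarith

theorem pv_bx (S : Finset (ℤ × ℤ)) (h : ℤ × ℤ → ℝ) (z : ℤ × ℤ) (k : ℕ)
    (hS : ∀ i j : ℤ, 2 * 2 ^ k ≤ i → i < 3 * 2 ^ k → 0 ≤ j → j < 2 ^ k →
      (z.1 + i, z.2 + j) ∈ S) :
    pv S (bx z k) h = Phi (fun i j => h (z.1 + i, z.2 + j)) k := by
  unfold pv Phi
  rw [← Finset.sum_product (f := fun x : ℤ × ℤ => h (z.1 + x.1, z.2 + x.2))]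
  set P := Finset.Ico (2 * 2 ^ k : ℤ) (3 * 2 ^ k) ×ˢ Finset.Ico (0 : ℤ) (2 ^ k) with hP
  have hsub : P.map (lb_emb z) ⊆ S := by
    intro x hx
    rw [Finset.mem_map] at hx
    obtain ⟨y, hy, rfl⟩ := hx
    rw [hP, Finset.mem_product, Finset.mem_Ico, Finset.mem_Ico] at hy
    exact hS y.1 y.2 hy.1.1 hy.1.2 hy.2.1 hy.2.2
  rw [← Finset.sum_subset hsub]
  · rw [Finset.sum_map, Finset.sum_div]
    refine Finset.sum_congr rfl fun x hx => ?_
    rw [hP, Finset.mem_product, Finset.mem_Ico, Finset.mem_Ico] at hx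
    have hb : bx z k (lb_emb z x) = 1 / 4 ^ k := by
      unfold bx
      refine if_pos ?_
      have e1 : (lb_emb z x).1 - z.1 = x.1 := by
        show z.1 + x.1 - z.1 = x.1
        ring
      have e2 : (lb_emb z x).2 - z.2 = x.2 := by
        show z.2 + x.2 - z.2 = x.2
        ring
      rw [e1, e2]
      exact ⟨hx.1.1, hx.1.2, hx.2.1, hx.2.2⟩
    rw [hb]
    show 1 / 4 ^ k * h (z.1 + x.1, z.2 + x.2) = h (z.1 + x.1, z.2 + x.2) / 4 ^ k
    ring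
  · intro x _ hx
    have hb : bx z k x = 0 := by
      unfold bx
      refine if_neg ?_
      rintro ⟨h1, h2, h3, h4⟩
      apply hx
      rw [Finset.mem_map]
      refine ⟨(x.1 - z.1, x.2 - z.2), ?_, ?_⟩
      · rw [hP, Finset.mem_product, Finset.mem_Ico, Finset.mem_Ico]
        exact ⟨⟨h1, h2⟩, ⟨h3, h4⟩⟩
      · show (z.1 + (x.1 - z.1), z.2 + (x.2 - z.2)) = x
        ext <;> simp
    rw [hb, zero_mul]

end HK
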