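import Mathlib
import Pool.Agent.Lib_helper69.HKL.DefsL
import Pool.Agent.Lib_helper69.QG.W.pe
import Pool.Agent.Lib_helper69.QG.W.ra

set_option autoImplicit false

namespace HK

open MeasureTheory QG

theorem ma_set (t : Fin 4 → ℝ) : {x : ℝ | ∀ i, |x - t i| ≤ 1} =
    Set.Icc (Finset.univ.sup' Finset.univ_nonempty t - 1)
      (Finset.univ.inf' Finset.univ_nonempty t + 1) := by
  ext x
  rw [Set.mem_Icc]
  change (∀ i, |x - t i| ≤ 1) ↔ _
  constructor
  · intro h
    constructor
    · obtain ⟨i, _, hi⟩ := Finset.exists_mem_eq_sup' Finset.univ_nonempty t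
      rw [hi]
      have := (abs_le.mp (h i)).1
      linarith
    · obtain ⟨i, _, hi⟩ := Finset.exists_mem_eq_inf' Finset.univ_nonempty t
      rw [hi]
      have := (abs_le.mp (h i)).2
      linarith
  · rintro ⟨h1, h2⟩ i
    have h3 := Finset.le_sup' t (Finset.mem_univ i)
    have h4 := Finset.inf'_le t (Finset.mem_univ i)
    rw [abs_le]
    constructor <;> linarith

/-- the length of the set of the heights that are compatible with the four neighbours -/
theorem wh_length (t : Fin 4 → ℝ) :
    volume {x : ℝ | ∀ i, |x - t i| ≤ 1} = ENNReal.ofReal (wh t) := by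
  rw [ma_set, Real.volume_Icc]
  have e : Finset.univ.inf' Finset.univ_nonempty t + 1 -
      (Finset.univ.sup' Finset.univ_nonempty t - 1) = 2 - osc t := by
    unfold osc
    ring
  rw [e]
  unfold wh
  rcases le_total 0 (2 - osc t) with h | h
  · rw [max_eq_right h]
  · rw [max_eq_left h, ENNReal.ofReal_of_nonpos h, ENNReal.ofReal_zero]

theorem ma_par (n : ℕ) {v : Tor n} (h : ¬ par n v = 1) (i : Fin 4) : par n (v + dir n i) = 1 := by
  rw [par_add, par_dir]
  rcases ra_z2 (par n v) with h1 | h1
  · rw [h1, zero_add]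
  · exact absurd h1 h

/-- the hammock density as a product over the odd sites -/
theorem hamT_odd (n : ℕ) [NeZero n] (φ : Tor n → ℝ) :
    (∀ v, |φ (v + (1, 0)) - φ v| ≤ 1 ∧ |φ (v + (0, 1)) - φ v| ≤ 1) ↔
      ∀ (v : Od n) (i : Fin 4), |φ v.1 - φ (cn n v i).1| ≤ 1 := by
  have d0 : dir n 0 = ((-1, 0) : Tor n) := rfl
  have d1 : dir n 1 = ((1, 0) : Tor n) := rfl
  have d2 : dir n 2 = ((0, 1) : Tor n) := rfl
  have d3 : dir n 3 = ((0, -1) : Tor n) := rfl
  have c0 : ∀ v : Od n, (cn n v 0).1 = v.1 + (-1, 0) := fun v => rfl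
  have c1 : ∀ v : Od n, (cn n v 1).1 = v.1 + (1, 0) := fun v => rfl
  have c2 : ∀ v : Od n, (cn n v 2).1 = v.1 + (0, 1) := fun v => rfl
  have c3 : ∀ v : Od n, (cn n v 3).1 = v.1 + (0, -1) := fun v => rfl
  have e1 : ∀ v : Tor n, v + (-1, 0) + (1, 0) = v := by
    intro v
    rw [add_assoc]
    have : ((-1, 0) : Tor n) + (1, 0) = 0 := by
      rw [Prod.mk_add_mk]
      simp
    rw [this, add_zero]
  have e2 : ∀ v : Tor n, v + (0, -1) + (0, 1) = v := by
    intro v
    rw [add_assoc]
    have : ((0, -1) : Tor n) + (0, 1) = 0 := by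
      rw [Prod.mk_add_mk]
      simp
    rw [this, add_zero]
  have e3 : ∀ v : Tor n, v + (1, 0) + (-1, 0) = v := by
    intro v
    rw [add_assoc]
    have : ((1, 0) : Tor n) + (-1, 0) = 0 := by
      rw [Prod.mk_add_mk]
      simp
    rw [this, add_zero]
  have e4 : ∀ v : Tor n, v + (0, 1) + (0, -1) = v := by
    intro v
    rw [add_assoc]
    have : ((0, 1) : Tor n) + (0, -1) = 0 := by
      rw [Prod.mk_add_mk]
      simp
    rw [this, add_zero]
  constructor
  · intro h v i
    fin_cases i
    · show |φ v.1 - φ (cn n v 0).1| ≤ 1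
      have := (h (v.1 + (-1, 0))).1
      rw [e1] at this
      rw [c0]
      exact this
    · show |φ v.1 - φ (cn n v 1).1| ≤ 1
      rw [c1, abs_sub_comm]
      exact (h v.1).1
    · show |φ v.1 - φ (cn n v 2).1| ≤ 1
      rw [c2, abs_sub_comm]
      exact (h v.1).2
    · show |φ v.1 - φ (cn n v 3).1| ≤ 1
      have := (h (v.1 + (0, -1))).2
      rw [e2] at this
      rw [c3]
      exact this
  · intro h v
    by_cases hv : par n v = 1
    · have h1 := h ⟨v, hv⟩ 1
      have h2 := h ⟨v, hv⟩ 2
      rw [c1, abs_sub_comm] at h1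
      rw [c2, abs_sub_comm] at h2
      exact ⟨h1, h2⟩
    · have p1 : par n (v + (1, 0)) = 1 := ma_par n hv 1
      have p2 : par n (v + (0, 1)) = 1 := ma_par n hv 2
      have h1 := h ⟨v + (1, 0), p1⟩ 0
      have h2 := h ⟨v + (0, 1), p2⟩ 3
      rw [c0] at h1
      rw [c3] at h2
      simp only [e3] at h1
      simp only [e4] at h2
      exact ⟨h1, h2⟩

theorem ma_inner {W : Type} [Fintype W] (t : W → Fin 4 → ℝ) :
    ∫⁻ b : W → ℝ, (Set.pi Set.univ (fun w => {x : ℝ | ∀ i, |x - t w i| ≤ 1})).indicator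
      (fun _ => (1 : ENNReal)) b = ENNReal.ofReal (∏ w, wh (t w)) := by
  have hm : ∀ w, MeasurableSet {x : ℝ | ∀ i, |x - t w i| ≤ 1} := by
    intro w
    rw [ma_set]
    exact measurableSet_Icc
  rw [lintegral_indicator (MeasurableSet.univ_pi hm), setLIntegral_one, volume_pi_pi]
  have h0 : ∀ w ∈ (Finset.univ : Finset W), 0 ≤ wh (t w) := fun w _ => le_max_left _ _
  rw [ENNReal.ofReal_prod_of_nonneg h0]
  exact Finset.prod_congr rfl fun w _ => wh_length (t w)

/-- integration of the heights at the odd sites -/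
theorem odd_integral_h (n : ℕ) [NeZero n] {H : (Ev n → ℝ) → ENNReal} (hH : Measurable H) :
    ∫⁻ φ, H (fun y => φ y.1) * hamT n φ ∂bsT n =
      ∫⁻ a, H a * ENNReal.ofReal (wt wh (cn n) 0 a) ∂bs (dg n 0) := by
  set μ : Tor n → Measure ℝ := fun v => if v = 0 then Measure.dirac 0 else volume with hμ
  have hσ : ∀ v, SigmaFinite (μ v) := by
    intro v
    rw [hμ]
    by_cases h : v = 0
    · simp only [h, if_true]
      infer_instance
    · simp only [h, if_false]
      infer_instance
  have hmp := measurePreserving_piEquivPiSubtypeProd (α := fun _ : Tor n => ℝ) μ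
    (fun y : Tor n => par n y = 0)
  set e : Od n ≃ {y : Tor n // ¬ par n y = 0} :=
    Equiv.subtypeEquivRight fun y => (ra_odd n y).symm with he
  set A : Set (({y : Tor n // par n y = 0} → ℝ) × ({y : Tor n // ¬ par n y = 0} → ℝ)) :=
    {z | ∀ (w : {y : Tor n // ¬ par n y = 0}) (i : Fin 4),
      |z.2 w - z.1 (cn n (e.symm w) i)| ≤ 1} with hA
  have hAm : MeasurableSet A := by
    rw [hA, Set.ofPred_forall]
    refine MeasurableSet.iInter fun w => ?_
    rw [Set.ofPred_forall]
    refine MeasurableSet.iInter fun i => ?_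
    refine measurableSet_le ?_ measurable_const
    refine Measurable.abs (Measurable.sub ?_ ?_)
    · exact (measurable_pi_apply w).comp measurable_snd
    · exact (measurable_pi_apply _).comp measurable_fst
  set F' : ({y : Tor n // par n y = 0} → ℝ) × ({y : Tor n // ¬ par n y = 0} → ℝ) → ENNReal :=
    fun z => H z.1 * A.indicator (fun _ => 1) z with hF'
  have hcomp : ∀ φ : Tor n → ℝ, H (fun y => φ y.1) * hamT n φ =
      F' (MeasurableEquiv.piEquivPiSubtypeProd (fun _ : Tor n => ℝ)
        (fun y : Tor n => par n y = 0) φ) := by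
    intro φ
    rw [hF']
    have h1 : hamT n φ = A.indicator (fun _ => 1)
        (MeasurableEquiv.piEquivPiSubtypeProd (fun _ : Tor n => ℝ)
          (fun y : Tor n => par n y = 0) φ) := by
      unfold hamT
      have h2 : (∀ v, |φ (v + (1, 0)) - φ v| ≤ 1 ∧ |φ (v + (0, 1)) - φ v| ≤ 1) ↔
          (MeasurableEquiv.piEquivPiSubtypeProd (fun _ : Tor n => ℝ)
            (fun y : Tor n => par n y = 0) φ) ∈ A := by
        rw [hamT_odd]
        constructor
        · intro h w i
          have := h (e.symm w) i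
          exact this
        · intro h v i
          have := h (e v) i
          rw [Equiv.symm_apply_apply] at this
          exact this
      by_cases h3 : ∀ v, |φ (v + (1, 0)) - φ v| ≤ 1 ∧ |φ (v + (0, 1)) - φ v| ≤ 1
      · rw [if_pos h3, Set.indicator_of_mem (h2.mp h3)]
      · rw [if_neg h3, Set.indicator_of_notMem (fun hc => h3 (h2.mpr hc))]
    rw [h1]
    rfl
  have hmeas : Measurable F' := by
    rw [hF']
    exact (hH.comp measurable_fst).mul (measurable_const.indicator hAm)
  have hL : ∫⁻ φ, H (fun y => φ y.1) * hamT n φ ∂bsT n =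
      ∫⁻ z, F' z ∂((Measure.pi fun i : {y : Tor n // par n y = 0} => μ i).prod
        (Measure.pi fun i : {y : Tor n // ¬ par n y = 0} => μ i)) := by
    rw [← hmp.lintegral_comp_emb (MeasurableEquiv.measurableEmbedding _) F']
    exact lintegral_congr fun φ => hcomp φ
  rw [hL, lintegral_prod _ hmeas.aemeasurable]
  have hμ1 : (Measure.pi fun i : {y : Tor n // par n y = 0} => μ i) = bs (dg n 0) := by
    unfold bs
    congr 1
    funext i
    rw [hμ]
    have h0 : (i.1 = 0) ↔ (i = dg n 0) := by
      rw [Subtype.ext_iff]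
      unfold dg
      simp only [Nat.cast_zero]
      rfl
    by_cases h : i.1 = 0
    · have h' := h0.mp h
      simp only [h, if_true]
      rw [if_pos h']
    · have h' : ¬ i = dg n 0 := fun hc => h (h0.mpr hc)
      simp only [h, if_false]
      rw [if_neg h']
  have hμ2 : (Measure.pi fun i : {y : Tor n // ¬ par n y = 0} => μ i) = volume := by
    rw [volume_pi]
    congr 1
    funext i
    rw [hμ]
    have h : ¬ i.1 = 0 := by
      intro h
      apply i.2
      rw [h]
      simp [par]
    simp only [h, if_false]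
  rw [hμ1, hμ2]
  refine lintegral_congr fun a => ?_
  rw [hF']
  simp only
  have hb : ∀ b : {y : Tor n // ¬ par n y = 0} → ℝ, A.indicator (fun _ => (1 : ENNReal)) (a, b) =
      (Set.pi Set.univ (fun w => {x : ℝ | ∀ i, |x - a (cn n (e.symm w) i)| ≤ 1})).indicator
        (fun _ => (1 : ENNReal)) b := by
    intro b
    have h2 : (a, b) ∈ A ↔
        b ∈ Set.pi Set.univ (fun w => {x : ℝ | ∀ i, |x - a (cn n (e.symm w) i)| ≤ 1}) := by
      rw [Set.mem_univ_pi]
      exact Iff.rfl
    by_cases h3 : (a, b) ∈ A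
    · rw [Set.indicator_of_mem h3, Set.indicator_of_mem (h2.mp h3)]
    · rw [Set.indicator_of_notMem h3, Set.indicator_of_notMem (fun hc => h3 (h2.mpr hc))]
  rw [lintegral_const_mul]
  · congr 1
    rw [lintegral_congr hb,
      ma_inner (fun w : {y : Tor n // ¬ par n y = 0} => fun i => a (cn n (e.symm w) i))]
    congr 1
    unfold wt
    have h1 : dot (0 : Ev n → ℝ) a = 0 := by
      unfold dot
      simp
    rw [h1, Real.exp_zero, mul_one, ← Equiv.prod_comp e]
    refine Finset.prod_congr rfl fun v _ => ?_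
    rw [Equiv.symm_apply_apply]
    rfl
  · exact (measurable_const.indicator hAm).comp measurable_prodMk_left

end HK
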