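import Mathlib
import Pool.Agent.Lib_helper69.HKL.DefsL
import Pool.Agent.Lib_helper69.QG.W.rb
import Pool.Agent.Lib_helper69.QG.W.fa
import Pool.Agent.Lib_helper69.QG.W.fe
import Pool.Agent.Lib_helper69.QG.W.fi
import Pool.Agent.Lib_helper69.HKL.W.ma
import Pool.Agent.Lib_helper69.HKL.W.mb

set_option autoImplicit false

namespace HK

open MeasureTheory QG

theorem mc_meas {A B : Type} [Fintype A] [DecidableEq A] [Fintype B] (c : B → Fin 4 → A) :
    Measurable (fun a : A → ℝ => wt wh c 0 a) := by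
  unfold wt
  refine Measurable.mul ?_ ?_
  · refine Finset.measurable_prod _ fun v _ => ?_
    refine wh_cont.measurable.comp ?_
    refine measurable_pi_lambda _ fun i => ?_
    exact measurable_pi_apply (c v i)
  · refine Real.measurable_exp.comp ?_
    unfold dot
    refine Finset.measurable_sum _ fun y _ => ?_
    exact (measurable_pi_apply y).const_mul _

theorem mc_dot {A : Type} [Fintype A] (b : A → ℝ) : dot (0 : A → ℝ) b = 0 := by
  unfold dot
  simp

theorem mc_nonneg {A B : Type} [Fintype A] [DecidableEq A] [Fintype B] (c : B → Fin 4 → A)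
    (a : A → ℝ) : 0 ≤ wt wh c 0 a := by
  unfold wt
  exact mul_nonneg (Finset.prod_nonneg fun v _ => (wh_basic _).1) (Real.exp_pos _).le

theorem mc_shift {A B : Type} [Fintype A] [DecidableEq A] [Fintype B] (c : B → Fin 4 → A)
    (a : A → ℝ) (r : ℝ) : wt wh c 0 (fun y => a y + r) = wt wh c 0 a := by
  unfold wt
  have h1 : ∀ v, wh (loc c (fun y => a y + r) v) = wh (loc c a v) := fun v =>
    (wh_basic (loc c a v)).2.2.1 r
  simp only [h1, mc_dot]

theorem mc_neg {A B : Type} [Fintype A] [DecidableEq A] [Fintype B] (c : B → Fin 4 → A)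
    (a : A → ℝ) : wt wh c 0 (-a) = wt wh c 0 a := by
  unfold wt
  have h1 : ∀ v, wh (loc c (-a) v) = wh (loc c a v) := fun v =>
    (wh_basic (loc c a v)).2.2.2.1
  simp only [h1, mc_dot]

/-- the density -/
theorem mc_dens (n : ℕ) [NeZero n] :
    Measurable (fun a : Ev n → ℝ => ENNReal.ofReal (wt wh (cn n) 0 a / Zt wh (cn n) (pp n) 0)) :=
  ENNReal.measurable_ofReal.comp ((mc_meas (cn n)).div_const _)

/-- integrals with respect to `muh` -/
theorem mc_mu (n : ℕ) [NeZero n] (F : (Ev n → ℝ) → ENNReal) (hF : Measurable F) :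
    ∫⁻ a, F a * ENNReal.ofReal (wt wh (cn n) 0 a) ∂bs (pp n) =
      ENNReal.ofReal (Zt wh (cn n) (pp n) 0) * ∫⁻ a, F a ∂muh n 0 := by
  have hZ := (wt_int_h n (pp n)).2
  have hm := mc_dens n
  unfold muh mu
  rw [lintegral_withDensity_eq_lintegral_mul _ hm hF, ← lintegral_const_mul _ (hm.mul hF)]
  refine lintegral_congr fun a => ?_
  show F a * ENNReal.ofReal (wt wh (cn n) 0 a)
    = ENNReal.ofReal (Zt wh (cn n) (pp n) 0) *
      (ENNReal.ofReal (wt wh (cn n) 0 a / Zt wh (cn n) (pp n) 0) * F a)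
  rw [← mul_assoc, ← ENNReal.ofReal_mul hZ.le, mul_div_cancel₀ _ hZ.ne', mul_comm]

theorem muh_prob (n : ℕ) [NeZero n] : IsProbabilityMeasure (muh n 0) := by
  obtain ⟨hi, hZ⟩ := wt_int_h n (pp n)
  refine ⟨?_⟩
  unfold muh mu
  rw [withDensity_apply _ MeasurableSet.univ, Measure.restrict_univ,
    ← ofReal_integral_eq_lintegral_ofReal (hi.div_const _)
      (Filter.Eventually.of_forall fun a => div_nonneg (mc_nonneg (cn n) a) hZ.le),
    integral_div]
  have h1 : ∫ a, wt wh (cn n) 0 a ∂bs (pp n) = Zt wh (cn n) (pp n) 0 := rfl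
  rw [h1, div_self hZ.ne', ENNReal.ofReal_one]

theorem muh_lip (n : ℕ) [NeZero n] : ∀ᵐ a ∂muh n 0, a (pp n) = 0 ∧ ∀ x y : Ev n, |a x - a y| ≤ 2 * (lv n x y : ℝ) := by
  have h1 : ∀ᵐ a ∂muh n 0, a (pp n) = 0 := mu_p wh (cn n) (pp n) 0
  have h2 : ∀ᵐ a ∂muh n 0, ∀ x y : Ev n, |a x - a y| ≤ 2 * (lv n x y : ℝ) := by
    unfold muh mu
    rw [ae_withDensity_iff (mc_dens n)]
    refine Filter.Eventually.of_forall fun a ha => ?_
    refine lip_of_wt n ?_
    intro h0
    refine ha ?_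
    rw [h0, zero_div, ENNReal.ofReal_zero]
  filter_upwards [h1, h2] with a ha hb
  exact ⟨ha, hb⟩

theorem muh_odd (n : ℕ) [NeZero n] {F : (Ev n → ℝ) → ℝ} (hF : Measurable F)
    (h : ∀ a, F (-a) = -F a) : ∫ a, F a ∂muh n 0 = 0 := by
  have hfin : ∀ᵐ a ∂bs (pp n),
      ENNReal.ofReal (wt wh (cn n) 0 a / Zt wh (cn n) (pp n) 0) < ⊤ :=
    Filter.Eventually.of_forall fun a => ENNReal.ofReal_lt_top
  have h1 : ∫ a, F a ∂muh n 0 =
      ∫ a, (ENNReal.ofReal (wt wh (cn n) 0 a / Zt wh (cn n) (pp n) 0)).toReal • F a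
        ∂bs (pp n) := by
    unfold muh mu
    exact integral_withDensity_eq_integral_toReal_smul (mc_dens n) hfin F
  have h2 := (bs_neg (p := pp n)).integral_comp fi_emb
    (fun a => (ENNReal.ofReal (wt wh (cn n) 0 a / Zt wh (cn n) (pp n) 0)).toReal • F a)
  simp only [mc_neg, h, smul_neg, integral_neg] at h2
  rw [← h1] at h2
  linarith

theorem mc_ham_meas (n : ℕ) [NeZero n] : Measurable (hamT n) := by
  unfold hamT
  refine Measurable.ite ?_ measurable_const measurable_const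
  refine IsClosed.measurableSet ?_
  have h1 : {φ : Tor n → ℝ | ∀ v, |φ (v + (1, 0)) - φ v| ≤ 1 ∧ |φ (v + (0, 1)) - φ v| ≤ 1} =
      ⋂ v, ({φ : Tor n → ℝ | |φ (v + (1, 0)) - φ v| ≤ 1} ∩
        {φ : Tor n → ℝ | |φ (v + (0, 1)) - φ v| ≤ 1}) := by
    ext φ
    simp
  rw [h1]
  refine isClosed_iInter fun v => IsClosed.inter ?_ ?_
  · exact isClosed_le (by fun_prop) continuous_const
  · exact isClosed_le (by fun_prop) continuous_const

/-- integrals of functions of the far height -/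
theorem mc_key (n : ℕ) [NeZero n] (F : ℝ → ENNReal) (hF : Measurable F) :
    ∫⁻ φ, F (far n φ) * hamT n φ ∂bsT n =
      ∫⁻ a, F (a (dg n n) - a (dg n 0)) * ENNReal.ofReal (wt wh (cn n) 0 a)
        ∂bs (pp n) := by
  have h2 : ∫⁻ φ, F (far n φ) * hamT n φ ∂bsT n
      = ∫⁻ a, F (a (dg n n)) * ENNReal.ofReal (wt wh (cn n) 0 a) ∂bs (dg n 0) :=
    odd_integral_h n (H := fun a : Ev n → ℝ => F (a (dg n n)))
      (hF.comp (measurable_pi_apply _))
  have h3 : ∫⁻ a, F (a (dg n n)) * ENNReal.ofReal (wt wh (cn n) 0 a) ∂bs (dg n 0)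
      = ∫⁻ a, F (a (dg n n) - a (dg n 0)) * ENNReal.ofReal (wt wh (cn n) 0 a) ∂bs (dg n 0) := by
    refine lintegral_congr_ae ?_
    filter_upwards [bs_p (p := dg n 0)] with a ha
    rw [ha, sub_zero]
  rw [h2, h3]
  refine pin_change (dg n 0) (pp n)
    (H := fun a => F (a (dg n n) - a (dg n 0)) * ENNReal.ofReal (wt wh (cn n) 0 a)) ?_ ?_
  · refine Measurable.mul ?_ ?_
    · exact hF.comp ((measurable_pi_apply _).sub (measurable_pi_apply _))
    · exact ENNReal.measurable_ofReal.comp (mc_meas (cn n))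
  · intro a r
    simp only [mc_shift, add_sub_add_right_eq_sub]

/-- the law of the height at the far vertex -/
theorem far_law_h (n : ℕ) [NeZero n] :
    IsProbabilityMeasure (muHT n) ∧ (muHT n).map (far n) =
      (muh n 0).map (fun a => a (dg n n) - a (dg n 0)) := by
  have hZ := (wt_int_h n (pp n)).2
  have hprob := muh_prob n
  have hfar : Measurable (far n) := measurable_pi_apply _
  have hdif : Measurable (fun a : Ev n → ℝ => a (dg n n) - a (dg n 0)) :=
    (measurable_pi_apply _).sub (measurable_pi_apply _)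
  -- the normalising constant
  have hone : ∫⁻ φ, hamT n φ ∂bsT n = ENNReal.ofReal (Zt wh (cn n) (pp n) 0) := by
    have h1 := mc_key n (fun _ => 1) measurable_const
    have h2 := mc_mu n (fun _ => 1) measurable_const
    rw [h2] at h1
    simpa using h1
  have hZ0 : ENNReal.ofReal (Zt wh (cn n) (pp n) 0) ≠ 0 := by
    rw [Ne, ENNReal.ofReal_eq_zero, not_le]
    exact hZ
  have hZt : ENNReal.ofReal (Zt wh (cn n) (pp n) 0) ≠ ⊤ := ENNReal.ofReal_ne_top
  have hint : ∀ F : ℝ → ENNReal, Measurable F →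
      ∫⁻ φ, F (far n φ) ∂muHT n = ∫⁻ a, F (a (dg n n) - a (dg n 0)) ∂muh n 0 := by
    intro F hF
    have h1 := mc_key n F hF
    have h2 := mc_mu n (fun a => F (a (dg n n) - a (dg n 0))) (hF.comp hdif)
    have h4 : ∫⁻ φ, F (far n φ) ∂((bsT n).withDensity (hamT n))
        = ∫⁻ φ, (hamT n * fun φ => F (far n φ)) φ ∂bsT n :=
      lintegral_withDensity_eq_lintegral_mul _ (mc_ham_meas n) (hF.comp hfar)
    unfold muHT
    rw [lintegral_smul_measure, hone, smul_eq_mul, h4]
    have h3 : ∫⁻ φ, (hamT n * fun φ => F (far n φ)) φ ∂bsT n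
        = ∫⁻ φ, F (far n φ) * hamT n φ ∂bsT n := by
      refine lintegral_congr fun φ => ?_
      exact mul_comm _ _
    rw [h3, h1, h2, ← mul_assoc, ENNReal.inv_mul_cancel hZ0 hZt, one_mul]
  constructor
  · refine ⟨?_⟩
    have h1 := hint (fun _ => 1) measurable_const
    simpa using h1
  · refine Measure.ext_of_lintegral _ fun F hF => ?_
    rw [lintegral_map hF hfar, lintegral_map hF hdif]
    exact hint F hF

end HK
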