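import Mathlib
import Pool.Agent.Lib_helper69.HKL.DefsL

set_option autoImplicit false

namespace HK

open MeasureTheory QG

/-- Riesz representation on the range of a linear map into a Euclidean space -/
theorem la_riesz {E ι : Type} [AddCommGroup E] [Module ℝ E] [Fintype ι]
    (T : E →ₗ[ℝ] EuclideanSpace ℝ ι)
    (L : E →ₗ[ℝ] ℝ) {R1 : ℝ} (hR : 0 ≤ R1) (h : ∀ h : E, L h ^ 2 ≤ R1 * ‖T h‖ ^ 2) :
    ∃ θ : EuclideanSpace ℝ ι, ‖θ‖ ^ 2 ≤ R1 ∧ ∀ h : E, L h = inner ℝ θ (T h) := by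
  have hk : L ∈ (LinearMap.ker T).dualAnnihilator := by
    rw [Submodule.mem_dualAnnihilator]
    intro x hx
    rw [LinearMap.mem_ker] at hx
    have h1 := h x
    rw [hx] at h1
    simp only [norm_zero] at h1
    nlinarith [sq_nonneg (L x)]
  rw [← LinearMap.range_dualMap_eq_dualAnnihilator_ker] at hk
  obtain ⟨g, hg⟩ := hk
  have hg' : ∀ x, g (T x) = L x := fun x => by
    rw [← hg]; rfl
  let θ0 : EuclideanSpace ℝ ι := (InnerProductSpace.toDual ℝ (EuclideanSpace ℝ ι)).symm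
    (LinearMap.toContinuousLinearMap g)
  have hθ0 : ∀ y, inner ℝ θ0 y = g y := fun y => by
    simp only [θ0]
    rw [InnerProductSpace.toDual_symm_apply]
    rfl
  let K : Submodule ℝ (EuclideanSpace ℝ ι) := LinearMap.range T
  let θ : EuclideanSpace ℝ ι := K.starProjection θ0
  have hθ : ∀ x, inner ℝ θ (T x) = L x := fun x => by
    have h1 : inner ℝ (θ0 - θ) (T x) = 0 :=
      K.starProjection_inner_eq_zero θ0 (T x) ⟨x, rfl⟩
    rw [inner_sub_left, hθ0, hg'] at h1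
    linarith
  obtain ⟨h0, hh0⟩ : θ ∈ LinearMap.range T := K.starProjection_apply_mem θ0
  refine ⟨θ, ?_, fun x => (hθ x).symm⟩
  have h2 := h h0
  have h3 := hθ h0
  rw [hh0, real_inner_self_eq_norm_sq] at h3
  rw [hh0, ← h3] at h2
  rcases eq_or_lt_of_le (sq_nonneg ‖θ‖) with h4 | h4
  · rw [← h4]; exact hR
  · nlinarith

/-- duality: a functional bounded by the energy on `T` is the divergence of a flow -/
theorem dual_nn (T : Finset (ℤ × ℤ)) {l : ℤ × ℤ → ℝ} {R : ℝ} (hR : 0 ≤ R)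
    (h : ∀ h : ℤ × ℤ → ℝ, pv T l h ^ 2 ≤ R * Ez T h) :
    ∃ θ : ℤ × ℤ → Fin 4 → ℝ, (∀ k ∉ T, ∀ i, θ k i = 0) ∧ ∑ k ∈ T, ∑ i, θ k i ^ 2 ≤ R ∧
      ∀ h : ℤ × ℤ → ℝ, pv T l h = ∑ k ∈ T, ∑ i, θ k i * (h (k + dz i) - h k) := by
  classical
  let T0 : (ℤ × ℤ → ℝ) →ₗ[ℝ] EuclideanSpace ℝ (↥T × Fin 4) :=
    { toFun := fun h => WithLp.toLp 2 fun p => h (p.1.1 + dz p.2) - h p.1.1
      map_add' := fun x y => by
        ext p
        simp only [PiLp.add_apply, Pi.add_apply]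
        ring
      map_smul' := fun r x => by
        ext p
        simp only [PiLp.smul_apply, Pi.smul_apply, smul_eq_mul, RingHom.id_apply]
        ring }
  let L : (ℤ × ℤ → ℝ) →ₗ[ℝ] ℝ :=
    { toFun := fun h => pv T l h
      map_add' := fun x y => by
        simp only [pv, Pi.add_apply, mul_add, Finset.sum_add_distrib]
      map_smul' := fun r x => by
        simp only [pv, Pi.smul_apply, smul_eq_mul, RingHom.id_apply, Finset.mul_sum]
        exact Finset.sum_congr rfl fun y _ => by ring }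
  have hT : ∀ (x : ℤ × ℤ → ℝ) (p : ↥T × Fin 4), T0 x p = x (p.1.1 + dz p.2) - x p.1.1 :=
    fun x p => rfl
  have hE : ∀ x : ℤ × ℤ → ℝ, ‖T0 x‖ ^ 2 = Ez T x := fun x => by
    rw [EuclideanSpace.norm_sq_eq]
    simp only [hT, Real.norm_eq_abs, sq_abs]
    rw [Fintype.sum_prod_type]
    unfold Ez
    exact Finset.sum_coe_sort T (fun k => ∑ i : Fin 4, (x (k + dz i) - x k) ^ 2)
  obtain ⟨θ, h1, h2⟩ := la_riesz T0 L hR (fun x => by rw [hE]; exact h x)
  have hθ : ∀ (k : ↥T) (i : Fin 4),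
      (if hk : k.1 ∈ T then θ (⟨k.1, hk⟩, i) else 0) = θ (k, i) := by
    intro k i
    rw [dif_pos k.2]
  refine ⟨fun k i => if hk : k ∈ T then θ (⟨k, hk⟩, i) else 0, ?_, ?_, ?_⟩
  · intro k hk i
    exact dif_neg hk
  · refine le_trans (le_of_eq ?_) h1
    rw [EuclideanSpace.norm_sq_eq]
    simp only [Real.norm_eq_abs, sq_abs]
    rw [Fintype.sum_prod_type,
      ← Finset.sum_coe_sort T (fun k => ∑ i : Fin 4, (if hk : k ∈ T then θ (⟨k, hk⟩, i) else 0) ^ 2)]
    exact Finset.sum_congr rfl fun k _ => Finset.sum_congr rfl fun i _ => by rw [hθ]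
  · intro x
    have h3 : pv T l x = inner ℝ θ (T0 x) := h2 x
    rw [h3, PiLp.inner_apply, Fintype.sum_prod_type,
      ← Finset.sum_coe_sort T (fun k => ∑ i : Fin 4, (if hk : k ∈ T then θ (⟨k, hk⟩, i) else 0) *
        (x (k + dz i) - x k))]
    refine Finset.sum_congr rfl fun k _ => Finset.sum_congr rfl fun i _ => ?_
    rw [hθ, hT, RCLike.inner_apply']
    rfl

end HK
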