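import Mathlib
import Pool.Agent.Lib_helper69.HKL.DefsL
import Pool.Agent.Lib_helper69.QG.W.pa
import Pool.Agent.Lib_helper69.QG.W.pb
import Pool.Agent.Lib_helper69.HKL.W.lb

set_option autoImplicit false

namespace HK

open MeasureTheory QG

theorem lc_Ez_nonneg (S : Finset (ℤ × ℤ)) (h : ℤ × ℤ → ℝ) : 0 ≤ Ez S h := by
  unfold Ez
  exact Finset.sum_nonneg fun k _ => Finset.sum_nonneg fun i _ => sq_nonneg _

theorem lc_pow (K : ℕ) {k : ℕ} (hk : k + 2 ≤ K) : (4 : ℤ) * 2 ^ k ≤ 2 ^ K := by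
  have h1 : (2 : ℤ) ^ (k + 2) ≤ 2 ^ K := pow_le_pow_right₀ (by norm_num) hk
  have h2 : (2 : ℤ) ^ (k + 2) = 4 * 2 ^ k := by
    rw [pow_add]
    ring
  linarith

theorem lc_bx (S : Finset (ℤ × ℤ)) (z : ℤ × ℤ) (K : ℕ)
    (hz : ∀ i j : ℤ, 0 ≤ i → i < 2 ^ K → 0 ≤ j → j < 2 ^ K → (z.1 + i, z.2 + j) ∈ S)
    (h : ℤ × ℤ → ℝ) {k : ℕ} (hk : k + 2 ≤ K) :
    pv S (bx z k) h = Phi (fun i j => h (z.1 + i, z.2 + j)) k := by
  have h4 := lc_pow K hk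
  have hp : (0 : ℤ) < 2 ^ k := by positivity
  refine pv_bx S h z k fun i j h1 h2 h3 h5 => hz i j ?_ ?_ h3 ?_
  · linarith
  · linarith
  · linarith

theorem lc_near (S : Finset (ℤ × ℤ)) (z : ℤ × ℤ) (K : ℕ) (hK : 3 ≤ K)
    (hz : ∀ i j : ℤ, 0 ≤ i → i < 2 ^ K → 0 ≤ j → j < 2 ^ K → (z.1 + i, z.2 + j) ∈ S)
    (h : ℤ × ℤ → ℝ) : (h z - pv S (bx z 0) h) ^ 2 ≤ 10 * Ez S h := by
  rw [lc_bx S z K hz h (by omega : 0 + 2 ≤ K)]
  have h8 : (8 : ℤ) ≤ 2 ^ K := by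
    have h1 : (2 : ℤ) ^ 3 ≤ 2 ^ K := pow_le_pow_right₀ (by norm_num) hK
    linarith
  have h1 := Phi_zero (fun i j => h (z.1 + i, z.2 + j))
  have h2 := sq4_Ez S h z 0 0 2 1 (by
    intro i j h1 h2 h3 h4
    refine ⟨hz i j h1 (by linarith) h3 (by linarith), hz (i + 1) (j + 1) (by linarith)
      (by linarith) (by linarith) (by linarith)⟩)
  have e1 : Finset.Ico (0 : ℤ) (0 + 2) = {0, 1} := by decide
  have e2 : Finset.Ico (0 : ℤ) (0 + 1) = {0} := by decide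
  rw [e1, e2, Finset.sum_pair (by norm_num), Finset.sum_singleton, Finset.sum_singleton] at h2
  have e3 : h z = h (z.1 + 0, z.2 + 0) := by
    rw [add_zero, add_zero]
  rw [e3]
  exact h1.trans h2

theorem lc_step (S : Finset (ℤ × ℤ)) (z : ℤ × ℤ) (K : ℕ)
    (hz : ∀ i j : ℤ, 0 ≤ i → i < 2 ^ K → 0 ≤ j → j < 2 ^ K → (z.1 + i, z.2 + j) ∈ S)
    (h : ℤ × ℤ → ℝ) {k k' : ℕ} (hk : k ≤ k') (hK : k' + 2 ≤ K) :
    (pv S (bx z k) h - pv S (bx z k') h) ^ 2 ≤ 1600 * ((k' : ℝ) - k) * Ez S h := by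
  rw [lc_bx S z K hz h (by omega : k + 2 ≤ K), lc_bx S z K hz h hK]
  have h4 := lc_pow K hK
  have hp : (1 : ℤ) ≤ 2 ^ k' := by exact_mod_cast Nat.one_le_two_pow
  refine (Phi_diff (fun i j => h (z.1 + i, z.2 + j)) hk).trans ?_
  have h2 := sq4_Ez S h z 0 0 (3 * 2 ^ k' - 1) (2 ^ k' - 1) (by
    intro i j h1 h2 h3 h5
    refine ⟨hz i j h1 (by linarith) h3 (by linarith), hz (i + 1) (j + 1) (by linarith)
      (by linarith) (by linarith) (by linarith)⟩)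
  rw [zero_add, zero_add] at h2
  have hkk : (0 : ℝ) ≤ (k' : ℝ) - k := by
    rw [sub_nonneg]
    exact_mod_cast hk
  calc 160 * ((k' : ℝ) - k) * ∑ i ∈ Finset.Ico (0 : ℤ) (3 * 2 ^ k' - 1),
        ∑ j ∈ Finset.Ico (0 : ℤ) (2 ^ k' - 1), sq4 (fun i j => h (z.1 + i, z.2 + j)) i j
      ≤ 160 * ((k' : ℝ) - k) * (10 * Ez S h) :=
        mul_le_mul_of_nonneg_left h2 (by positivity)
    _ = 1600 * ((k' : ℝ) - k) * Ez S h := by ring

theorem lc_sum (S : Finset (ℤ × ℤ)) (z : ℤ × ℤ) (K : ℕ)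
    (hz : ∀ i j : ℤ, 0 ≤ i → i < 2 ^ K → 0 ≤ j → j < 2 ^ K → (z.1 + i, z.2 + j) ∈ S)
    {k : ℕ} (hk : k + 2 ≤ K) : ∑ y ∈ S, bx z k y = 1 := by
  have h1 := lc_bx S z K hz (fun _ => 1) hk
  unfold pv at h1
  simp only [mul_one] at h1
  rw [h1]
  unfold Phi
  have a1 : (3 * 2 ^ k - 2 * 2 ^ k : ℤ).toNat = 2 ^ k := by
    have : (3 * 2 ^ k - 2 * 2 ^ k : ℤ) = ((2 ^ k : ℕ) : ℤ) := by push_cast; ring
    rw [this, Int.toNat_natCast]
  have a2 : (2 ^ k - 0 : ℤ).toNat = 2 ^ k := by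
    have : (2 ^ k - 0 : ℤ) = ((2 ^ k : ℕ) : ℤ) := by push_cast; ring
    rw [this, Int.toNat_natCast]
  simp only [Finset.sum_const, Int.card_Ico, a1, a2, nsmul_eq_mul]
  push_cast
  rw [mul_one, ← mul_pow]
  norm_num

theorem lc_supp (S : Finset (ℤ × ℤ)) (z : ℤ × ℤ) (K : ℕ)
    (hz : ∀ i j : ℤ, 0 ≤ i → i < 2 ^ K → 0 ≤ j → j < 2 ^ K → (z.1 + i, z.2 + j) ∈ S)
    {k : ℕ} (hk : k + 2 ≤ K) (y : ℤ × ℤ) (hy : bx z k y ≠ 0) :
    y ∈ S ∧ 2 ^ (k + 1) ≤ di z y ∧ di z y ≤ 2 ^ (k + 2) := by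
  have hc : 2 * 2 ^ k ≤ y.1 - z.1 ∧ y.1 - z.1 < 3 * 2 ^ k ∧ 0 ≤ y.2 - z.2 ∧ y.2 - z.2 < 2 ^ k := by
    by_contra hn
    apply hy
    unfold bx
    exact if_neg hn
  have h4 := lc_pow K hk
  obtain ⟨h1, h2, h3, h5⟩ := hc
  have hp : (1 : ℤ) ≤ 2 ^ k := by exact_mod_cast Nat.one_le_two_pow
  refine ⟨?_, ?_, ?_⟩
  · have h6 := hz (y.1 - z.1) (y.2 - z.2) (by linarith) (by linarith) h3 (by linarith)
    have e : ((z.1 + (y.1 - z.1), z.2 + (y.2 - z.2)) : ℤ × ℤ) = y := by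
      ext <;> simp
    rwa [e] at h6
  · unfold di
    refine le_max_of_le_left ?_
    have e : ((2 ^ (k + 1) : ℕ) : ℤ) = 2 * 2 ^ k := by
      push_cast
      ring
    zify
    rw [abs_sub_comm]
    refine le_trans ?_ (le_abs_self _)
    have e2 : (2 : ℤ) ^ (k + 1) = 2 * 2 ^ k := by ring
    rw [e2]
    exact h1
  · unfold di
    have e2 : (2 : ℤ) ^ (k + 2) = 4 * 2 ^ k := by ring
    refine max_le ?_ ?_
    · zify
      rw [e2, abs_le]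
      constructor <;> linarith
    · zify
      rw [e2, abs_le]
      constructor <;> linarith

theorem lc_avg (S T : Finset (ℤ × ℤ)) (g : ℤ × ℤ → ℝ) (a : ℝ) (ha : 0 < a)
    (hS : (S.card : ℝ) = a) (hT : (T.card : ℝ) = a) :
    ((∑ x ∈ S, g x) / a - (∑ y ∈ T, g y) / a) ^ 2 ≤
      (∑ x ∈ S, ∑ y ∈ T, (g x - g y) ^ 2) / (a * a) := by
  have h1 : (∑ x ∈ S, g x) / a - (∑ y ∈ T, g y) / a =
      (∑ p ∈ S ×ˢ T, (g p.1 - g p.2)) / (a * a) := by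
    rw [Finset.sum_sub_distrib, Finset.sum_product, Finset.sum_product]
    simp only [Finset.sum_const, nsmul_eq_mul]
    rw [← Finset.mul_sum, hS, hT]
    field_simp
  have h2 := sq_sum_le_card_mul_sum_sq (s := S ×ˢ T)
    (f := fun p : (ℤ × ℤ) × (ℤ × ℤ) => g p.1 - g p.2)
  have h3 : ((S ×ˢ T).card : ℝ) = a * a := by
    rw [Finset.card_product]
    push_cast
    rw [hS, hT]
  rw [h3, Finset.sum_product (f := fun p : (ℤ × ℤ) × (ℤ × ℤ) => (g p.1 - g p.2) ^ 2)] at h2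
  rw [h1, div_pow, div_le_div_iff₀ (by positivity) (by positivity)]
  have hab : 0 < a * a := mul_pos ha ha
  nlinarith [mul_le_mul_of_nonneg_right h2 hab.le]

/-- the square with lower corner `z + (2 * 2 ^ k, 0)` -/
noncomputable def lc_B (z : ℤ × ℤ) (k : ℕ) : Finset (ℤ × ℤ) :=
  Finset.Ico (z.1 + 2 * 2 ^ k) (z.1 + 3 * 2 ^ k) ×ˢ Finset.Ico z.2 (z.2 + 2 ^ k)

theorem lc_B_card (z : ℤ × ℤ) (k : ℕ) : ((lc_B z k).card : ℝ) = 4 ^ k := by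
  unfold lc_B
  rw [Finset.card_product, Int.card_Ico, Int.card_Ico]
  have a1 : (z.1 + 3 * 2 ^ k - (z.1 + 2 * 2 ^ k) : ℤ).toNat = 2 ^ k := by
    have : (z.1 + 3 * 2 ^ k - (z.1 + 2 * 2 ^ k) : ℤ) = ((2 ^ k : ℕ) : ℤ) := by push_cast; ring
    rw [this, Int.toNat_natCast]
  have a2 : (z.2 + 2 ^ k - z.2 : ℤ).toNat = 2 ^ k := by
    have : (z.2 + 2 ^ k - z.2 : ℤ) = ((2 ^ k : ℕ) : ℤ) := by push_cast; ring
    rw [this, Int.toNat_natCast]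
  rw [a1, a2]
  push_cast
  rw [← mul_pow]
  norm_num

theorem lc_Phi (h : ℤ × ℤ → ℝ) (z : ℤ × ℤ) (k : ℕ) :
    Phi (fun i j => h (z.1 + i, z.2 + j)) k = (∑ x ∈ lc_B z k, h x) / 4 ^ k := by
  unfold Phi lc_B
  congr 1
  rw [Finset.sum_product]
  have e1 : ∀ i : ℤ, ∑ j ∈ Finset.Ico (0 : ℤ) (2 ^ k), h (z.1 + i, z.2 + j) =
      ∑ y ∈ Finset.Ico z.2 (z.2 + 2 ^ k), h (z.1 + i, y) := by
    intro i
    have := Finset.sum_Ico_add' (fun y => h (z.1 + i, y)) 0 (2 ^ k) z.2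
    rw [zero_add] at this
    rw [add_comm z.2 (2 ^ k), ← this]
    exact Finset.sum_congr rfl fun j _ => by rw [add_comm z.2 j]
  simp only [e1]
  have e2 := Finset.sum_Ico_add' (fun x => ∑ y ∈ Finset.Ico z.2 (z.2 + 2 ^ k), h (x, y))
    (2 * 2 ^ k) (3 * 2 ^ k) z.1
  rw [add_comm z.1 (2 * 2 ^ k), add_comm z.1 (3 * 2 ^ k), ← e2]
  exact Finset.sum_congr rfl fun i _ => by rw [add_comm z.1 i]

/-- the planar geometry -/
theorem ageo_planar : ∃ Cg : ℝ, 1 ≤ Cg ∧ ∀ (K D : ℕ) (a b : ℤ), 3 ≤ K → 2 ^ (K + 1) < D →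
    D ≤ 2 ^ (K + 8) → a ≤ -(2 ^ (K + 2) : ℤ) → (D : ℤ) + 2 ^ (K + 2) ≤ b →
    AGeo (Finset.Icc a b ×ˢ Finset.Icc a b) (Ez (Finset.Icc a b ×ˢ Finset.Icc a b)) K Cg
      ![(0, 0), ((D : ℤ), (D : ℤ))] ![di (0, 0), di ((D : ℤ), (D : ℤ))]
      ![bx (0, 0), bx ((D : ℤ), (D : ℤ))] := by
  refine ⟨2 ^ 50, by norm_num, ?_⟩
  intro K D a b hK hD1 hD2 ha hb
  set S := Finset.Icc a b ×ˢ Finset.Icc a b with hS
  have hKp : (1 : ℤ) ≤ 2 ^ K := by exact_mod_cast Nat.one_le_two_pow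
  have e2 : (2 : ℤ) ^ (K + 2) = 4 * 2 ^ K := by ring
  have e1 : (2 : ℤ) ^ (K + 1) = 2 * 2 ^ K := by ring
  have e8 : (2 : ℤ) ^ (K + 8) = 256 * 2 ^ K := by ring
  have hD1z : (2 : ℤ) * 2 ^ K < D := by
    rw [← e1]
    exact_mod_cast hD1
  have hD2z : (D : ℤ) ≤ 256 * 2 ^ K := by
    rw [← e8]
    exact_mod_cast hD2
  rw [e2] at ha hb
  have hz0 : ∀ i j : ℤ, 0 ≤ i → i < 2 ^ K → 0 ≤ j → j < 2 ^ K →
      ((0 : ℤ × ℤ).1 + i, (0 : ℤ × ℤ).2 + j) ∈ S := by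
    intro i j h1 h2 h3 h4
    rw [hS, Finset.mem_product, Finset.mem_Icc, Finset.mem_Icc]
    simp only [Prod.fst_zero, Prod.snd_zero, zero_add]
    refine ⟨⟨?_, ?_⟩, ⟨?_, ?_⟩⟩ <;> linarith
  have hzD : ∀ i j : ℤ, 0 ≤ i → i < 2 ^ K → 0 ≤ j → j < 2 ^ K →
      ((((D : ℤ), (D : ℤ)) : ℤ × ℤ).1 + i, (((D : ℤ), (D : ℤ)) : ℤ × ℤ).2 + j) ∈ S := by
    intro i j h1 h2 h3 h4
    rw [hS, Finset.mem_product, Finset.mem_Icc, Finset.mem_Icc]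
    simp only
    refine ⟨⟨?_, ?_⟩, ⟨?_, ?_⟩⟩ <;> linarith
  have hz : ∀ s : Fin 2, ∀ i j : ℤ, 0 ≤ i → i < 2 ^ K → 0 ≤ j → j < 2 ^ K →
      (((![(0, 0), ((D : ℤ), (D : ℤ))] : Fin 2 → ℤ × ℤ) s).1 + i,
        ((![(0, 0), ((D : ℤ), (D : ℤ))] : Fin 2 → ℤ × ℤ) s).2 + j) ∈ S := by
    intro s
    fin_cases s
    · exact hz0
    · exact hzD
  have hph : ∀ s : Fin 2, (![bx (0, 0), bx ((D : ℤ), (D : ℤ))] : Fin 2 → ℕ → ℤ × ℤ → ℝ) s =
      bx ((![(0, 0), ((D : ℤ), (D : ℤ))] : Fin 2 → ℤ × ℤ) s) := by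
    intro s
    fin_cases s <;> rfl
  have hlev : ∀ s : Fin 2, (![di (0, 0), di ((D : ℤ), (D : ℤ))] : Fin 2 → ℤ × ℤ → ℕ) s =
      di ((![(0, 0), ((D : ℤ), (D : ℤ))] : Fin 2 → ℤ × ℤ) s) := by
    intro s
    fin_cases s <;> rfl
  have hE : ∀ h, 0 ≤ Ez S h := lc_Ez_nonneg S
  refine ⟨by norm_num, hE, ?_, ?_, ?_, ?_, ?_, ?_, ?_, ?_⟩
  · intro s
    have := hz s 0 0 le_rfl (by linarith) le_rfl (by linarith)
    rwa [add_zero, add_zero] at this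
  · intro s s' y hss h1
    have sep0 : ∀ y : ℤ × ℤ, di (0, 0) y ≤ 2 ^ K → 2 ^ K < di ((D : ℤ), (D : ℤ)) y := by
      intro y h1
      unfold di at h1 ⊢
      rw [max_le_iff] at h1
      refine lt_max_of_lt_left ?_
      have h2 := h1.1
      zify at h2 ⊢
      simp only [zero_sub, abs_neg] at h2
      rw [abs_le] at h2
      refine lt_of_lt_of_le ?_ (le_abs_self _)
      linarith [h2.2]
    have sep1 : ∀ y : ℤ × ℤ, di ((D : ℤ), (D : ℤ)) y ≤ 2 ^ K → 2 ^ K < di (0, 0) y := by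
      intro y h1
      unfold di at h1 ⊢
      rw [max_le_iff] at h1
      refine lt_max_of_lt_left ?_
      have h2 := h1.1
      zify at h2 ⊢
      simp only [zero_sub, abs_neg]
      rw [abs_le] at h2
      refine lt_of_lt_of_le ?_ (le_abs_self _)
      linarith [h2.2]
    fin_cases s <;> fin_cases s'
    · exact absurd rfl hss
    · exact sep0 y h1
    · exact sep1 y h1
    · exact absurd rfl hss
  · intro s h
    rw [hph]
    refine (lc_near S _ K hK (hz s) h).trans ?_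
    nlinarith [hE h]
  · intro s k k' hk hk' h
    rw [hph]
    refine (lc_step S _ K (hz s) h hk hk').trans ?_
    have hkk : (0 : ℝ) ≤ (k' : ℝ) - k := by
      rw [sub_nonneg]
      exact_mod_cast hk
    refine mul_le_mul_of_nonneg_right ?_ (hE h)
    exact mul_le_mul_of_nonneg_right (by norm_num) hkk
  · intro h
    rw [hph, hph]
    have hk2 : K - 2 + 2 ≤ K := by omega
    rw [lc_bx S _ K (hz 0) h hk2, lc_bx S _ K (hz 1) h hk2, lc_Phi, lc_Phi]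
    set k := K - 2 with hkdef
    have hKk : (2 : ℤ) ^ K = 4 * 2 ^ k := by
      have : K = k + 2 := by omega
      rw [this, pow_add]
      ring
    set z0 := (![(0, 0), ((D : ℤ), (D : ℤ))] : Fin 2 → ℤ × ℤ) 0 with hz0def
    set z1 := (![(0, 0), ((D : ℤ), (D : ℤ))] : Fin 2 → ℤ × ℤ) 1 with hz1def
    have ez0 : z0 = (0, 0) := rfl
    have ez1 : z1 = ((D : ℤ), (D : ℤ)) := rfl
    have hpk : (0 : ℝ) < 4 ^ k := by positivity
    refine (lc_avg (lc_B z0 k) (lc_B z1 k) h (4 ^ k) hpk (lc_B_card z0 k)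
      (lc_B_card z1 k)).trans ?_
    rw [div_le_iff₀ (by positivity)]
    -- the big square
    set M : ℕ := D + 2 ^ K with hM
    have hMz : (M : ℤ) = D + 2 ^ K := by
      rw [hM]
      push_cast
      ring
    have hpkz : (1 : ℤ) ≤ 2 ^ k := by exact_mod_cast Nat.one_le_two_pow
    set R : Finset (ℤ × ℤ) := Finset.Ico (0 : ℤ) (0 + M) ×ˢ Finset.Ico (0 : ℤ) (0 + M) with hR
    have hsub0 : lc_B z0 k ⊆ R := by
      intro x hx
      unfold lc_B at hx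
      rw [ez0, Finset.mem_product, Finset.mem_Ico, Finset.mem_Ico] at hx
      simp only [zero_add] at hx
      rw [hR, Finset.mem_product, Finset.mem_Ico, Finset.mem_Ico, zero_add, hMz, hKk]
      rw [hKk] at hD1z
      obtain ⟨⟨h1, h2⟩, h3, h4⟩ := hx
      refine ⟨⟨?_, ?_⟩, ⟨?_, ?_⟩⟩ <;> linarith
    have hsub1 : lc_B z1 k ⊆ R := by
      intro x hx
      unfold lc_B at hx
      rw [ez1, Finset.mem_product, Finset.mem_Ico, Finset.mem_Ico] at hx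
      simp only at hx
      rw [hR, Finset.mem_product, Finset.mem_Ico, Finset.mem_Ico, zero_add, hMz, hKk]
      rw [hKk] at hD1z
      obtain ⟨⟨h1, h2⟩, h3, h4⟩ := hx
      refine ⟨⟨?_, ?_⟩, ⟨?_, ?_⟩⟩ <;> linarith
    have h4 : ∑ x ∈ lc_B z0 k, ∑ y ∈ lc_B z1 k, (h x - h y) ^ 2 ≤
        ∑ x ∈ R, ∑ y ∈ R, (h x - h y) ^ 2 := by
      refine (Finset.sum_le_sum fun x _ => Finset.sum_le_sum_of_subset_of_nonneg hsub1
        fun y _ _ => sq_nonneg _).trans ?_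
      exact Finset.sum_le_sum_of_subset_of_nonneg hsub0
        fun x _ _ => Finset.sum_nonneg fun y _ => sq_nonneg _
    have hM2 : 2 ≤ M := by
      have : (2 : ℤ) ≤ M := by
        rw [hMz]
        linarith
      exact_mod_cast this
    have hp := box_poincare (fun i j => h ((0 : ℤ × ℤ).1 + i, (0 : ℤ × ℤ).2 + j)) 0 0 M M hM2 hM2
    have h5 : ∑ x ∈ R, ∑ y ∈ R, (h x - h y) ^ 2 =
        ∑ i ∈ Finset.Ico (0 : ℤ) (0 + M), ∑ j ∈ Finset.Ico (0 : ℤ) (0 + M),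
          ∑ i' ∈ Finset.Ico (0 : ℤ) (0 + M), ∑ j' ∈ Finset.Ico (0 : ℤ) (0 + M),
            (h ((0 : ℤ × ℤ).1 + i, (0 : ℤ × ℤ).2 + j) -
              h ((0 : ℤ × ℤ).1 + i', (0 : ℤ × ℤ).2 + j')) ^ 2 := by
      rw [hR, Finset.sum_product]
      refine Finset.sum_congr rfl fun i _ => Finset.sum_congr rfl fun j _ => ?_
      rw [Finset.sum_product]
      refine Finset.sum_congr rfl fun i' _ => Finset.sum_congr rfl fun j' _ => ?_
      simp only [Prod.fst_zero, Prod.snd_zero, zero_add]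
    have h6 := sq4_Ez S h 0 0 0 (M - 1) (M - 1) (by
      intro i j h1 h2 h3 h4
      rw [hMz] at h2 h4
      rw [hS, Finset.mem_product, Finset.mem_Icc, Finset.mem_Icc, Finset.mem_product,
        Finset.mem_Icc, Finset.mem_Icc]
      simp only [Prod.fst_zero, Prod.snd_zero, zero_add]
      refine ⟨⟨⟨?_, ?_⟩, ⟨?_, ?_⟩⟩, ⟨?_, ?_⟩, ⟨?_, ?_⟩⟩ <;> linarith)
    have e6 : (0 : ℤ) + (M - 1) = 0 + M - 1 := by ring
    rw [e6] at h6
    rw [← h5] at hp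
    refine (h4.trans hp).trans ?_
    have hMr : (M : ℝ) ≤ 2 ^ 11 * 2 ^ k := by
      have : (M : ℤ) ≤ 2 ^ 11 * 2 ^ k := by
        rw [hMz, hKk]
        rw [hKk] at hD2z
        norm_num
        linarith
      exact_mod_cast this
    have hM0 : (0 : ℝ) ≤ M := Nat.cast_nonneg _
    have hM4 : (M : ℝ) ^ 4 ≤ 2 ^ 44 * (4 ^ k * 4 ^ k) := by
      calc (M : ℝ) ^ 4 ≤ (2 ^ 11 * 2 ^ k) ^ 4 := pow_le_pow_left₀ hM0 hMr 4
        _ = 2 ^ 44 * (4 ^ k * 4 ^ k) := by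
          have : (4 : ℝ) ^ k = 2 ^ k * 2 ^ k := by rw [← mul_pow]; norm_num
          rw [this]
          ring
    have hsqnn : 0 ≤ ∑ i ∈ Finset.Ico (0 : ℤ) (0 + M - 1), ∑ j ∈ Finset.Ico (0 : ℤ) (0 + M - 1),
        sq4 (fun i j => h ((0 : ℤ × ℤ).1 + i, (0 : ℤ × ℤ).2 + j)) i j := by
      refine Finset.sum_nonneg fun i _ => Finset.sum_nonneg fun j _ => ?_
      unfold sq4 QG.q
      exact Finset.sum_nonneg fun i _ => Finset.sum_nonneg fun j _ => sq_nonneg _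
    calc 2 * (M : ℝ) * M * ((M : ℝ) ^ 2 + (M : ℝ) ^ 2) *
          ∑ i ∈ Finset.Ico (0 : ℤ) (0 + M - 1), ∑ j ∈ Finset.Ico (0 : ℤ) (0 + M - 1),
            sq4 (fun i j => h ((0 : ℤ × ℤ).1 + i, (0 : ℤ × ℤ).2 + j)) i j
        = 4 * (M : ℝ) ^ 4 *
          ∑ i ∈ Finset.Ico (0 : ℤ) (0 + M - 1), ∑ j ∈ Finset.Ico (0 : ℤ) (0 + M - 1),
            sq4 (fun i j => h ((0 : ℤ × ℤ).1 + i, (0 : ℤ × ℤ).2 + j)) i j := by ring
      _ ≤ 4 * (2 ^ 44 * (4 ^ k * 4 ^ k)) * (10 * Ez S h) := by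
          refine mul_le_mul (by linarith) h6 hsqnn (by positivity)
      _ ≤ 2 ^ 50 * Ez S h * (4 ^ k * 4 ^ k) := by
          have h7 : (0 : ℝ) ≤ Ez S h * (4 ^ k * 4 ^ k) := mul_nonneg (hE h) (by positivity)
          nlinarith [h7]
  · intro s k y hk hy
    rw [hph] at hy
    rw [hlev]
    exact lc_supp S _ K (hz s) hk y hy
  · intro s k hk
    rw [hph]
    exact lc_sum S _ K (hz s) hk
  · intro s k y
    rw [hph]
    unfold bx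
    split_ifs
    · positivity
    · exact le_rfl

end HK
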