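import Mathlib
import Pool.Agent.Lib_helper69.HKL.DefsL
import Pool.Agent.Lib_helper69.QG.W.te

set_option autoImplicit false

namespace HK

open MeasureTheory QG

theorem ld_pv_sub {V : Type} (S : Finset V) (u v h : V → ℝ) :
    pv S (fun y => u y - v y) h = pv S u h - pv S v h := by
  unfold pv
  rw [← Finset.sum_sub_distrib]
  exact Finset.sum_congr rfl fun y _ => by ring

theorem ld_pv_mul {V : Type} (S : Finset V) (r : ℝ) (u h : V → ℝ) :
    pv S (fun y => r * u y) h = r * pv S u h := by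
  unfold pv
  rw [Finset.mul_sum]
  exact Finset.sum_congr rfl fun y _ => by ring

/-- the remainder at one centre -/
theorem ld_rem {V : Type} {S : Finset V} {E : (V → ℝ) → ℝ} {K : ℕ} {Cg : ℝ} {z : Fin 2 → V}
    {lev : Fin 2 → V → ℕ} {ph : Fin 2 → ℕ → V → ℝ}
    (hG : AGeo S E K Cg z lev ph) (J g b : ℕ) (hJ : 2 ≤ J) (hK2 : 2 ≤ K) (hbg : b ≤ g)
    (hJg : J * g ≤ K - 2) (hJg2 : K - 2 < J * g + J) (hbK : (b : ℝ) ≤ K / J ^ 5 + 3)
    (s : Fin 2) (h : V → ℝ) :
    (h (z s) - ∑ j ∈ Finset.range J, (pv S (ph s (K - 2 - (j + 1) * g)) h -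
      pv S (ph s (K - 2 - j * g - b)) h) - pv S (ph s (K - 2)) h) ^ 2 ≤
      12 * Cg * ((K : ℝ) / J ^ 3 + (J : ℝ) ^ 2) * E h := by
  have hCg := hG.one_le
  have hE := hG.nonneg h
  have hJr : (2 : ℝ) ≤ J := by exact_mod_cast hJ
  set a : ℕ → ℝ := fun k => pv S (ph s k) h with ha
  have htel : ∑ j ∈ Finset.range J, (a (K - 2 - (j + 1) * g) - a (K - 2 - j * g)) =
      a (K - 2 - J * g) - a (K - 2) := by
    rw [Finset.sum_range_sub (fun j => a (K - 2 - j * g))]
    simp
  have hsplit : h (z s) - ∑ j ∈ Finset.range J, (a (K - 2 - (j + 1) * g) -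
      a (K - 2 - j * g - b)) - a (K - 2) =
      (h (z s) - a 0) + (a 0 - a (K - 2 - J * g)) +
        ∑ j ∈ Finset.range J, (a (K - 2 - j * g - b) - a (K - 2 - j * g)) := by
    have e1 : ∑ j ∈ Finset.range J, (a (K - 2 - (j + 1) * g) - a (K - 2 - j * g - b)) =
        ∑ j ∈ Finset.range J, (a (K - 2 - (j + 1) * g) - a (K - 2 - j * g)) -
          ∑ j ∈ Finset.range J, (a (K - 2 - j * g - b) - a (K - 2 - j * g)) := by
      rw [← Finset.sum_sub_distrib]
      exact Finset.sum_congr rfl fun j _ => by ring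
    rw [e1, htel]; ring
  change (h (z s) - ∑ j ∈ Finset.range J, (a (K - 2 - (j + 1) * g) -
      a (K - 2 - j * g - b)) - a (K - 2)) ^ 2 ≤ _
  rw [hsplit]
  have b1 : (h (z s) - a 0) ^ 2 ≤ Cg * E h := hG.near s h
  have b2 : (a 0 - a (K - 2 - J * g)) ^ 2 ≤ Cg * J * E h := by
    have h1 := hG.step s 0 (K - 2 - J * g) (Nat.zero_le _) (by omega) h
    have h2 : (((K - 2 - J * g : ℕ) : ℝ) - ((0 : ℕ) : ℝ)) ≤ J := by
      have : K - 2 - J * g ≤ J := by omega
      rw [Nat.cast_zero, sub_zero]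
      exact_mod_cast this
    refine h1.trans ?_
    exact mul_le_mul_of_nonneg_right (mul_le_mul_of_nonneg_left h2 (by linarith)) hE
  have b3 : ∀ j ∈ Finset.range J, (a (K - 2 - j * g - b) - a (K - 2 - j * g)) ^ 2 ≤
      Cg * b * E h := by
    intro j hj
    rw [Finset.mem_range] at hj
    have hjg : j * g + g ≤ J * g := by
      calc j * g + g = (j + 1) * g := by ring
        _ ≤ J * g := Nat.mul_le_mul_right g hj
    have h1 := hG.step s (K - 2 - j * g - b) (K - 2 - j * g) (Nat.sub_le _ _) (by omega) h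
    have h2 : (((K - 2 - j * g : ℕ) : ℝ) - ((K - 2 - j * g - b : ℕ) : ℝ)) = b := by
      rw [Nat.cast_sub (by omega : b ≤ K - 2 - j * g)]; ring
    rw [h2] at h1
    exact h1
  have b4 : (∑ j ∈ Finset.range J, (a (K - 2 - j * g - b) - a (K - 2 - j * g))) ^ 2 ≤
      J * (J * (Cg * b * E h)) := by
    have h1 := sq_sum_le_card_mul_sum_sq (s := Finset.range J)
      (f := fun j => a (K - 2 - j * g - b) - a (K - 2 - j * g))
    rw [Finset.card_range] at h1
    refine h1.trans (mul_le_mul_of_nonneg_left ?_ (by positivity))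
    calc _ ≤ ∑ _j ∈ Finset.range J, Cg * b * E h := Finset.sum_le_sum b3
      _ = _ := by rw [Finset.sum_const, Finset.card_range, nsmul_eq_mul]
  set x := h (z s) - a 0
  set y := a 0 - a (K - 2 - J * g)
  set w := ∑ j ∈ Finset.range J, (a (K - 2 - j * g - b) - a (K - 2 - j * g))
  have h3 : (x + y + w) ^ 2 ≤ 3 * (x ^ 2 + y ^ 2 + w ^ 2) := by
    nlinarith [sq_nonneg (x - y), sq_nonneg (y - w), sq_nonneg (x - w)]
  have h4 : (J : ℝ) * (J * (Cg * b * E h)) ≤
      Cg * (K / J ^ 3 + 3 * J ^ 2) * E h := by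
    have h5 : (J : ℝ) * (J * (Cg * b * E h)) = Cg * (J ^ 2 * b) * E h := by ring
    rw [h5]
    have h6 : (J : ℝ) ^ 2 * b ≤ K / J ^ 3 + 3 * J ^ 2 := by
      calc (J : ℝ) ^ 2 * b ≤ J ^ 2 * (K / J ^ 5 + 3) :=
            mul_le_mul_of_nonneg_left hbK (by positivity)
        _ = K / J ^ 3 + 3 * J ^ 2 := by field_simp
    exact mul_le_mul_of_nonneg_right (mul_le_mul_of_nonneg_left h6 (by linarith)) hE
  have h7 : 3 * (Cg * E h + Cg * J * E h + Cg * (K / J ^ 3 + 3 * J ^ 2) * E h) ≤
      12 * Cg * ((K : ℝ) / J ^ 3 + (J : ℝ) ^ 2) * E h := by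
    have h8 : 0 ≤ Cg * E h := mul_nonneg (by linarith) hE
    have h9 : (0 : ℝ) ≤ K / J ^ 3 := by positivity
    have h10 : 3 * (1 + J + ((K : ℝ) / J ^ 3 + 3 * J ^ 2)) ≤ 12 * ((K : ℝ) / J ^ 3 + (J : ℝ) ^ 2) := by
      nlinarith
    have h11 := mul_le_mul_of_nonneg_left h10 h8
    calc _ = Cg * E h * (3 * (1 + J + ((K : ℝ) / J ^ 3 + 3 * J ^ 2))) := by ring
      _ ≤ _ := h11
      _ = _ := by ring
  linarith

/-- the blocks -/
theorem blk_exist (J : ℕ) (hJ : 2 ≤ J) : ∃ K0 : ℕ, ∀ {V : Type} {S : Finset V}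
    {E : (V → ℝ) → ℝ} {K : ℕ} {Cg : ℝ} {z : Fin 2 → V} {lev : Fin 2 → V → ℕ}
    {ph : Fin 2 → ℕ → V → ℝ}, AGeo S E K Cg z lev ph → K0 ≤ K →
      ∃ (l : Fin (2 * J) → V → ℝ) (s : Fin (2 * J) → Fin 2) (ki ko : Fin (2 * J) → ℕ),
        Blk S E K Cg z lev J l s ki ko := by
  refine ⟨4 * J + 2, ?_⟩
  intro V S E K Cg z lev ph hG hK
  have hCg := hG.one_le
  obtain ⟨g, b, hb3, hbg, hJg, hJg2, hKb, hbK, hgK⟩ := te_num J K hJ hK
  have hJr : (2 : ℝ) ≤ J := by exact_mod_cast hJ
  have hmul : ∀ j, j < J → j * g + g ≤ J * g := by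
    intro j hj
    calc j * g + g = (j + 1) * g := by ring
      _ ≤ J * g := Nat.mul_le_mul_right g hj
  set sI : ℕ → Fin 2 := fun i => if i < J then 0 else 1 with hsI
  set jI : ℕ → ℕ := fun i => if i < J then J - 1 - i else 2 * J - 1 - i with hjI
  set sg : ℕ → ℝ := fun i => if i < J then -1 else 1 with hsg
  have hjlt : ∀ i, i < 2 * J → jI i < J := by
    intro i hi
    simp only [hjI]
    split_ifs <;> omega
  set D : Fin 2 → ℕ → V → ℝ := fun s j y =>
    ph s (K - 2 - (j + 1) * g) y - ph s (K - 2 - j * g - b) y with hD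
  have hDdot : ∀ s j h, pv S (D s j) h = pv S (ph s (K - 2 - (j + 1) * g)) h -
      pv S (ph s (K - 2 - j * g - b)) h := fun s j h => ld_pv_sub _ _ _ _
  have hsg2 : ∀ i, sg i ^ 2 = 1 := by
    intro i
    simp only [hsg]
    split_ifs <;> norm_num
  have hsga : ∀ i, |sg i| = 1 := by
    intro i
    simp only [hsg]
    split_ifs <;> norm_num
  refine ⟨fun i y => sg i * D (sI i) (jI i) y, fun i => sI i, fun i => K - 2 - jI i * g - b + 2,
    fun i => K - 2 - jI i * g + 1, ?_, ?_, ?_, ?_, ?_, ?_, ?_⟩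
  · intro i
    have hj := hjlt i i.2
    have hm := hmul _ hj
    change K - 2 - jI i * g - b + 2 ≤ K - 2 - jI i * g + 1 ∧ K - 2 - jI i * g + 1 ≤ K ∧ _
    refine ⟨by omega, by omega, ?_⟩
    change _ ≤ ((K - 2 - jI i * g + 1 : ℕ) : ℝ) - ((K - 2 - jI i * g - b + 2 : ℕ) : ℝ)
    have e1 : ((K - 2 - jI i * g + 1 : ℕ) : ℝ) - ((K - 2 - jI i * g - b + 2 : ℕ) : ℝ) =
        (b : ℝ) - 1 := by
      have : K - 2 - jI i * g + 1 = (K - 2 - jI i * g - b + 2) + (b - 1) := by omega
      rw [this]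
      push_cast
      rw [Nat.cast_sub (by omega : 1 ≤ b)]
      push_cast
      ring
    rw [e1]
    exact hKb
  · intro i h
    have hj := hjlt i i.2
    have hm := hmul _ hj
    have hm2 : (jI i + 1) * g = jI i * g + g := by ring
    rw [ld_pv_mul, mul_pow, hsg2, one_mul, hDdot]
    have h1 := hG.step (sI i) (K - 2 - (jI i + 1) * g) (K - 2 - jI i * g - b) (by omega)
      (by omega) h
    refine h1.trans (mul_le_mul_of_nonneg_right (mul_le_mul_of_nonneg_left ?_ (by linarith))
      (hG.nonneg h))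
    refine le_trans ?_ hgK
    have : K - 2 - jI i * g - b ≤ (K - 2 - (jI i + 1) * g) + g := by omega
    have h2 : ((K - 2 - jI i * g - b : ℕ) : ℝ) ≤ ((K - 2 - (jI i + 1) * g : ℕ) : ℝ) + g := by
      exact_mod_cast this
    linarith
  · intro i y hy
    have hj := hjlt i i.2
    have hm := hmul _ hj
    have hm2 : (jI i + 1) * g = jI i * g + g := by ring
    have hy2 : ph (sI i) (K - 2 - (jI i + 1) * g) y ≠ 0 ∨
        ph (sI i) (K - 2 - jI i * g - b) y ≠ 0 := by
      by_contra hcon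
      push Not at hcon
      refine hy ?_
      simp only [hD]
      rw [hcon.1, hcon.2]; ring
    rcases hy2 with h | h
    · have h1 := hG.supp (sI i) _ y (by omega) h
      exact ⟨h1.1, h1.2.2.trans (Nat.pow_le_pow_right (by norm_num) (by omega))⟩
    · have h1 := hG.supp (sI i) _ y (by omega) h
      exact ⟨h1.1, h1.2.2⟩
  · intro i j hij y hy
    have hj := hjlt i i.2
    have hm := hmul _ hj
    have hj' := hjlt j j.2
    have hm' := hmul _ hj'
    have hm2 : (jI j + 1) * g = jI j * g + g := by ring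
    have hij' : (i : ℕ) < (j : ℕ) := hij
    -- the level of y around the centre of j
    have hy2 : ph (sI j) (K - 2 - (jI j + 1) * g) y ≠ 0 ∨
        ph (sI j) (K - 2 - jI j * g - b) y ≠ 0 := by
      by_contra hcon
      push Not at hcon
      refine hy ?_
      simp only [hD]
      rw [hcon.1, hcon.2]; ring
    have hlev : 2 ^ (K - 2 - (jI j + 1) * g + 1) ≤ lev (sI j) y ∧ lev (sI j) y ≤ 2 ^ K := by
      rcases hy2 with h | h
      · have h1 := hG.supp (sI j) _ y (by omega) h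
        exact ⟨h1.2.1, h1.2.2.trans (Nat.pow_le_pow_right (by norm_num) (by omega))⟩
      · have h1 := hG.supp (sI j) _ y (by omega) h
        exact ⟨(Nat.pow_le_pow_right (by norm_num) (by omega)).trans h1.2.1,
          h1.2.2.trans (Nat.pow_le_pow_right (by norm_num) (by omega))⟩
    by_cases hs : sI i = sI j
    · change 2 ^ (K - 2 - jI i * g + 1) ≤ lev (sI i) y
      rw [hs]
      refine le_trans (Nat.pow_le_pow_right (by norm_num) ?_) hlev.1
      have hjj : jI j + 1 ≤ jI i := by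
        simp only [hsI] at hs
        simp only [hjI]
        have h2 := j.2
        split_ifs at hs ⊢ with c1 c2 c2
        · omega
        · exact absurd hs (by decide)
        · omega
        · omega
      have : (jI j + 1) * g ≤ jI i * g := Nat.mul_le_mul_right g hjj
      omega
    · have h1 := hG.sep (sI j) (sI i) y (fun h => hs h.symm) hlev.2
      change 2 ^ (K - 2 - jI i * g + 1) ≤ lev (sI i) y
      exact (Nat.pow_le_pow_right (by norm_num) (by omega)).trans h1.le
  · intro i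
    have hj := hjlt i i.2
    have hm := hmul _ hj
    have hm2 : (jI i + 1) * g = jI i * g + g := by ring
    rw [← Finset.mul_sum]
    simp only [hD]
    rw [Finset.sum_sub_distrib, hG.sum _ _ (by omega), hG.sum _ _ (by omega)]
    ring
  · intro i
    have hj := hjlt i i.2
    have hm := hmul _ hj
    have hm2 : (jI i + 1) * g = jI i * g + g := by ring
    unfold n1
    have h1 : ∀ y ∈ S, |sg i * D (sI i) (jI i) y| ≤ ph (sI i) (K - 2 - (jI i + 1) * g) y +
        ph (sI i) (K - 2 - jI i * g - b) y := by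
      intro y _
      rw [abs_mul, hsga, one_mul]
      simp only [hD]
      have p1 := hG.pos (sI i) (K - 2 - (jI i + 1) * g) y
      have p2 := hG.pos (sI i) (K - 2 - jI i * g - b) y
      rw [abs_le]
      constructor <;> linarith
    refine (Finset.sum_le_sum h1).trans ?_
    rw [Finset.sum_add_distrib, hG.sum _ _ (by omega), hG.sum _ _ (by omega)]
    norm_num
  · intro h
    have hE := hG.nonneg h
    have r0 := ld_rem hG J g b hJ (by omega) hbg hJg hJg2 hbK 0 h
    have r1 := ld_rem hG J g b hJ (by omega) hbg hJg hJg2 hbK 1 h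
    have r2 := hG.last h
    have hsum : ∑ i : Fin (2 * J), pv S (fun y => sg i * D (sI i) (jI i) y) h =
        -∑ j ∈ Finset.range J, (pv S (ph 0 (K - 2 - (j + 1) * g)) h -
          pv S (ph 0 (K - 2 - j * g - b)) h) +
        ∑ j ∈ Finset.range J, (pv S (ph 1 (K - 2 - (j + 1) * g)) h -
          pv S (ph 1 (K - 2 - j * g - b)) h) := by
      rw [← Finset.sum_range (fun i => pv S (fun y => sg i * D (sI i) (jI i) y) h), two_mul,
        Finset.sum_range_add]
      congr 1
      · rw [← Finset.sum_range_reflect (fun j => pv S (ph 0 (K - 2 - (j + 1) * g)) h -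
          pv S (ph 0 (K - 2 - j * g - b)) h), ← Finset.sum_neg_distrib]
        refine Finset.sum_congr rfl fun i hi => ?_
        rw [Finset.mem_range] at hi
        rw [ld_pv_mul, hDdot]
        simp only [hsg, hsI, hjI, if_pos hi]
        ring
      · rw [← Finset.sum_range_reflect (fun j => pv S (ph 1 (K - 2 - (j + 1) * g)) h -
          pv S (ph 1 (K - 2 - j * g - b)) h)]
        refine Finset.sum_congr rfl fun i hi => ?_
        rw [Finset.mem_range] at hi
        rw [ld_pv_mul, hDdot]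
        have h1 : ¬ J + i < J := by omega
        have h2 : 2 * J - 1 - (J + i) = J - 1 - i := by omega
        simp only [hsg, hsI, hjI, if_neg h1, h2]
        ring
    rw [hsum]
    set S0 := ∑ j ∈ Finset.range J, (pv S (ph 0 (K - 2 - (j + 1) * g)) h -
          pv S (ph 0 (K - 2 - j * g - b)) h)
    set S1 := ∑ j ∈ Finset.range J, (pv S (ph 1 (K - 2 - (j + 1) * g)) h -
          pv S (ph 1 (K - 2 - j * g - b)) h)
    set a0 := pv S (ph 0 (K - 2)) h
    set a1 := pv S (ph 1 (K - 2)) h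
    have e1 : h (z 1) - h (z 0) - (-S0 + S1) =
        (h (z 1) - S1 - a1) + (-(h (z 0) - S0 - a0)) + (-(a0 - a1)) := by ring
    rw [e1]
    set x := h (z 1) - S1 - a1
    set y := h (z 0) - S0 - a0
    set w := a0 - a1
    have h3 : (x + -y + -w) ^ 2 ≤ 3 * (x ^ 2 + y ^ 2 + w ^ 2) := by
      nlinarith [sq_nonneg (x + y), sq_nonneg (y - w), sq_nonneg (x + w)]
    have h4 : Cg * E h ≤ Cg * ((K : ℝ) / J ^ 3 + (J : ℝ) ^ 2) * E h := by
      have h5 : (1 : ℝ) ≤ (K : ℝ) / J ^ 3 + (J : ℝ) ^ 2 := by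
        have : (0 : ℝ) ≤ K / J ^ 3 := by positivity
        nlinarith
      have h6 : 0 ≤ Cg * E h := mul_nonneg (by linarith) hE
      nlinarith
    have h7 : 0 ≤ Cg * ((K : ℝ) / J ^ 3 + (J : ℝ) ^ 2) * E h := by positivity
    linarith

end HK
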