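import Mathlib
import Pool.Agent.Lib_helper69.HKL.DefsL
import Pool.Agent.Lib_helper69.QG.W.tb

set_option autoImplicit false

namespace HK

open MeasureTheory QG

/-- factorisation of a characteristic function, one block after the other -/
theorem peel2 {Ω : Type} [MeasurableSpace Ω] {μ : Measure Ω} [IsProbabilityMeasure μ] (M : ℕ)
    (D : Fin M → Ω → ℝ) (hD : ∀ i, Measurable (D i)) (η : ℝ)
    (hdec : ∀ i : Fin M, ∀ u F : ℝ → ℝ, (u = Real.cos ∨ u = Real.sin) →
      (F = Real.cos ∨ F = Real.sin) →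
      |∫ ω, u (∑ j ∈ Finset.univ.filter (fun j => i < j), D j ω) * F (D i ω) ∂μ -
        (∫ ω, u (∑ j ∈ Finset.univ.filter (fun j => i < j), D j ω) ∂μ) *
          ∫ ω, F (D i ω) ∂μ| ≤ η) :
    ‖∫ ω, Complex.exp ((∑ i, D i ω : ℝ) * Complex.I) ∂μ -
      ∏ i, ∫ ω, Complex.exp ((D i ω : ℝ) * Complex.I) ∂μ‖ ≤ 4 * M * η := by
  induction M with
  | zero => simp
  | succ M ih =>
    have hfs : ∀ (i : Fin M) (ω : Ω),
        ∑ j ∈ Finset.univ.filter (fun j : Fin (M + 1) => i.succ < j), D j ω =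
          ∑ j ∈ Finset.univ.filter (fun j : Fin M => i < j), D j.succ ω := by
      intro i ω
      rw [Finset.sum_filter, Finset.sum_filter, Fin.sum_univ_succ]
      simp [Fin.succ_lt_succ_iff]
    have hf0 : ∀ ω : Ω, ∑ j ∈ Finset.univ.filter (fun j : Fin (M + 1) => 0 < j), D j ω =
          ∑ j : Fin M, D j.succ ω := by
      intro ω
      rw [Finset.sum_filter, Fin.sum_univ_succ]
      simp
    have ih' := ih (fun i => D i.succ) (fun i => hD i.succ) (fun i u F hu hF => by
      have h := hdec i.succ u F hu hF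
      simp only [hfs] at h
      exact h)
    have h0 : ∀ u F : ℝ → ℝ, (u = Real.cos ∨ u = Real.sin) → (F = Real.cos ∨ F = Real.sin) →
        |∫ ω, u (∑ j : Fin M, D j.succ ω) * F (D 0 ω) ∂μ -
        (∫ ω, u (∑ j : Fin M, D j.succ ω) ∂μ) * ∫ ω, F (D 0 ω) ∂μ| ≤ η := by
      intro u F hu hF
      have h := hdec 0 u F hu hF
      simp only [hf0] at h
      exact h
    set U : Ω → ℝ := fun a => ∑ i : Fin M, D i.succ a with hU
    set V : Ω → ℝ := fun a => D 0 a with hV
    have hUm : Measurable U := Finset.measurable_sum _ fun i _ => hD _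
    have hVm : Measurable V := hD _
    have cm : Measurable fun a => Real.cos (U a) := Real.measurable_cos.comp hUm
    have sm : Measurable fun a => Real.sin (U a) := Real.measurable_sin.comp hUm
    have cmV : Measurable fun a => Real.cos (V a) := Real.measurable_cos.comp hVm
    have smV : Measurable fun a => Real.sin (V a) := Real.measurable_sin.comp hVm
    have d1 := h0 Real.cos Real.cos (Or.inl rfl) (Or.inl rfl)
    have d2 := h0 Real.sin Real.sin (Or.inr rfl) (Or.inr rfl)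
    have d3 := h0 Real.cos Real.sin (Or.inl rfl) (Or.inr rfl)
    have d4 := h0 Real.sin Real.cos (Or.inr rfl) (Or.inl rfl)
    have icc : Integrable (fun a => Real.cos (U a) * Real.cos (V a)) μ :=
      QG.tb_int (cm.mul cmV) fun a => by
        rw [abs_mul]
        exact mul_le_one₀ (Real.abs_cos_le_one _) (abs_nonneg _) (Real.abs_cos_le_one _)
    have iss : Integrable (fun a => Real.sin (U a) * Real.sin (V a)) μ :=
      QG.tb_int (sm.mul smV) fun a => by
        rw [abs_mul]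
        exact mul_le_one₀ (Real.abs_sin_le_one _) (abs_nonneg _) (Real.abs_sin_le_one _)
    have ics : Integrable (fun a => Real.cos (U a) * Real.sin (V a)) μ :=
      QG.tb_int (cm.mul smV) fun a => by
        rw [abs_mul]
        exact mul_le_one₀ (Real.abs_cos_le_one _) (abs_nonneg _) (Real.abs_sin_le_one _)
    have isc : Integrable (fun a => Real.sin (U a) * Real.cos (V a)) μ :=
      QG.tb_int (sm.mul cmV) fun a => by
        rw [abs_mul]
        exact mul_le_one₀ (Real.abs_sin_le_one _) (abs_nonneg _) (Real.abs_cos_le_one _)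
    have e0 : ∫ a, Complex.exp ((∑ i, D i a : ℝ) * Complex.I) ∂μ =
        (((∫ a, Real.cos (U a) * Real.cos (V a) ∂μ) -
          ∫ a, Real.sin (U a) * Real.sin (V a) ∂μ : ℝ) : ℂ) +
        (((∫ a, Real.cos (U a) * Real.sin (V a) ∂μ) +
          ∫ a, Real.sin (U a) * Real.cos (V a) ∂μ : ℝ) : ℂ) * Complex.I := by
      have hsum : ∀ a, (∑ i, D i a : ℝ) = V a + U a := fun a => Fin.sum_univ_succ _
      simp_rw [hsum]
      have r1 : ∫ a, Real.cos (V a + U a) ∂μ = (∫ a, Real.cos (U a) * Real.cos (V a) ∂μ) -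
          ∫ a, Real.sin (U a) * Real.sin (V a) ∂μ := by
        rw [← integral_sub icc iss]
        refine integral_congr_ae (Filter.Eventually.of_forall fun a => ?_)
        simp only [Real.cos_add]
        ring
      have r2 : ∫ a, Real.sin (V a + U a) ∂μ = (∫ a, Real.cos (U a) * Real.sin (V a) ∂μ) +
          ∫ a, Real.sin (U a) * Real.cos (V a) ∂μ := by
        rw [← integral_add ics isc]
        refine integral_congr_ae (Filter.Eventually.of_forall fun a => ?_)
        simp only [Real.sin_add]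
        ring
      rw [QG.tb_exp (f := fun a => V a + U a) (hVm.add hUm), r1, r2]
    have eU : ∫ a, Complex.exp ((∑ i : Fin M, D i.succ a : ℝ) * Complex.I) ∂μ =
        ((∫ a, Real.cos (U a) ∂μ : ℝ) : ℂ) + ((∫ a, Real.sin (U a) ∂μ : ℝ) : ℂ) * Complex.I :=
      QG.tb_exp hUm
    have eV : ∫ a, Complex.exp ((D 0 a : ℝ) * Complex.I) ∂μ =
        ((∫ a, Real.cos (V a) ∂μ : ℝ) : ℂ) + ((∫ a, Real.sin (V a) ∂μ : ℝ) : ℂ) * Complex.I :=
      QG.tb_exp hVm
    have nV : ‖∫ a, Complex.exp ((D 0 a : ℝ) * Complex.I) ∂μ‖ ≤ 1 := QG.tb_norm _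
    have step1 : ‖∫ a, Complex.exp ((∑ i, D i a : ℝ) * Complex.I) ∂μ -
        (∫ a, Complex.exp ((D 0 a : ℝ) * Complex.I) ∂μ) *
          ∫ a, Complex.exp ((∑ i : Fin M, D i.succ a : ℝ) * Complex.I) ∂μ‖ ≤ 4 * η := by
      rw [e0, eU, eV]
      set a1 := (∫ a, Real.cos (U a) * Real.cos (V a) ∂μ) -
        (∫ a, Real.cos (U a) ∂μ) * ∫ a, Real.cos (V a) ∂μ with ha1
      set a2 := (∫ a, Real.sin (U a) * Real.sin (V a) ∂μ) -
        (∫ a, Real.sin (U a) ∂μ) * ∫ a, Real.sin (V a) ∂μ with ha2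
      set a3 := (∫ a, Real.cos (U a) * Real.sin (V a) ∂μ) -
        (∫ a, Real.cos (U a) ∂μ) * ∫ a, Real.sin (V a) ∂μ with ha3
      set a4 := (∫ a, Real.sin (U a) * Real.cos (V a) ∂μ) -
        (∫ a, Real.sin (U a) ∂μ) * ∫ a, Real.cos (V a) ∂μ with ha4
      have hid : (((∫ a, Real.cos (U a) * Real.cos (V a) ∂μ) -
          ∫ a, Real.sin (U a) * Real.sin (V a) ∂μ : ℝ) : ℂ) +
        (((∫ a, Real.cos (U a) * Real.sin (V a) ∂μ) +
          ∫ a, Real.sin (U a) * Real.cos (V a) ∂μ : ℝ) : ℂ) * Complex.I -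
        (((∫ a, Real.cos (V a) ∂μ : ℝ) : ℂ) + ((∫ a, Real.sin (V a) ∂μ : ℝ) : ℂ) * Complex.I) *
        (((∫ a, Real.cos (U a) ∂μ : ℝ) : ℂ) + ((∫ a, Real.sin (U a) ∂μ : ℝ) : ℂ) * Complex.I) =
        ((a1 - a2 : ℝ) : ℂ) + ((a3 + a4 : ℝ) : ℂ) * Complex.I := by
        rw [ha1, ha2, ha3, ha4]
        push_cast
        ring_nf
        rw [Complex.I_sq]
        ring
      rw [hid]
      refine (norm_add_le _ _).trans ?_
      rw [norm_mul, Complex.norm_I, mul_one, Complex.norm_real, Complex.norm_real,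
        Real.norm_eq_abs, Real.norm_eq_abs]
      have b1 := abs_sub a1 a2
      have b2 := abs_add_le a3 a4
      linarith
    rw [Fin.prod_univ_succ]
    set X := ∫ a, Complex.exp ((∑ i, D i a : ℝ) * Complex.I) ∂μ
    set B := ∫ a, Complex.exp ((D 0 a : ℝ) * Complex.I) ∂μ
    set Y := ∫ a, Complex.exp ((∑ i : Fin M, D i.succ a : ℝ) * Complex.I) ∂μ
    set P := ∏ i : Fin M, ∫ a, Complex.exp ((D i.succ a : ℝ) * Complex.I) ∂μ
    have hdecomp : X - B * P = (X - B * Y) + B * (Y - P) := by ring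
    rw [hdecomp]
    refine (norm_add_le _ _).trans ?_
    rw [norm_mul]
    have h2 : ‖B‖ * ‖Y - P‖ ≤ 1 * (4 * M * η) :=
      mul_le_mul nV ih' (norm_nonneg _) zero_le_one
    push_cast
    linarith

end HK
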