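import Mathlib
import Pool.Agent.Lib_helper69.HKL.DefsL
import Pool.Agent.Lib_helper69.QG.W.td
import Pool.Agent.Lib_helper69.HKL.W.ld
import Pool.Agent.Lib_helper69.HKL.W.le

set_option autoImplicit false

namespace HK

open MeasureTheory QG

theorem lf_sub {V : Type} (S : Finset V) (a b h : V → ℝ) :
    pv S (fun k => a k - b k) h = pv S a h - pv S b h := by
  unfold pv
  rw [← Finset.sum_sub_distrib]
  apply Finset.sum_congr rfl
  intro k _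
  ring

theorem lf_sum {V ι : Type} (S : Finset V) (I : Finset ι) (l : ι → V → ℝ) (h : V → ℝ) :
    pv S (fun k => ∑ i ∈ I, l i k) h = ∑ i ∈ I, pv S (l i) h := by
  unfold pv
  rw [Finset.sum_comm]
  apply Finset.sum_congr rfl
  intro k _
  rw [Finset.sum_mul]

theorem lf_n1_sub {V : Type} (S : Finset V) (a b : V → ℝ) :
    n1 S (fun k => a k - b k) ≤ n1 S a + n1 S b := by
  unfold n1
  rw [← Finset.sum_add_distrib]
  apply Finset.sum_le_sum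
  intro k _
  exact abs_sub _ _

theorem lf_n1_sum {V ι : Type} (S : Finset V) (I : Finset ι) (l : ι → V → ℝ) :
    n1 S (fun k => ∑ i ∈ I, l i k) ≤ ∑ i ∈ I, n1 S (l i) := by
  unfold n1
  rw [Finset.sum_comm]
  apply Finset.sum_le_sum
  intro k _
  exact Finset.abs_sum_le_sum_abs _ _

theorem lf_n1_nonneg {V : Type} (S : Finset V) (l : V → ℝ) : 0 ≤ n1 S l :=
  Finset.sum_nonneg (fun _ _ => abs_nonneg _)

open Classical in
/-- the unit mass -/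
noncomputable def lf_d {V : Type} (z : V) (k : V) : ℝ := if k = z then 1 else 0

theorem lf_pv_d {V : Type} (S : Finset V) {z : V} (hz : z ∈ S) (h : V → ℝ) :
    pv S (lf_d z) h = h z := by
  classical
  unfold pv lf_d
  rw [Finset.sum_eq_single z]
  · simp
  · intro k _ hk
    simp [hk]
  · intro hn
    exact absurd hz hn

theorem lf_n1_d {V : Type} (S : Finset V) (z : V) : n1 S (lf_d z) ≤ 1 := by
  classical
  unfold n1 lf_d
  have h1 : ∀ k : V, |(if k = z then (1 : ℝ) else 0)| = if k = z then 1 else 0 := by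
    intro k
    split_ifs <;> simp
  simp only [h1, Finset.sum_ite_eq']
  split_ifs <;> norm_num

theorem lf_meas {V Ω : Type} [MeasurableSpace Ω] {S : Finset V} {Y : Ω → V → ℝ}
    (hY : ∀ k ∈ S, Measurable fun ω => Y ω k) (l : V → ℝ) :
    Measurable (fun ω => pv S l (Y ω)) := by
  unfold pv
  exact Finset.measurable_fun_sum _ (fun k hk => (hY k hk).const_mul _)

theorem lf_bdd {V Ω : Type} [MeasurableSpace Ω] {μ : Measure Ω} {S : Finset V} {Y : Ω → V → ℝ}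
    {B : ℝ} (hB : ∀ᵐ ω ∂μ, ∀ k ∈ S, |Y ω k| ≤ B) (l : V → ℝ) :
    ∀ᵐ ω ∂μ, |pv S l (Y ω)| ≤ n1 S l * B := by
  filter_upwards [hB] with ω hω
  unfold pv n1
  refine (Finset.abs_sum_le_sum_abs _ _).trans ?_
  rw [Finset.sum_mul]
  apply Finset.sum_le_sum
  intro k hk
  rw [abs_mul]
  exact mul_le_mul_of_nonneg_left (hω k hk) (abs_nonneg _)

theorem lf_int {Ω : Type} [MeasurableSpace Ω] {μ : Measure Ω} [IsProbabilityMeasure μ]
    {f : Ω → ℝ} (hf : Measurable f) {B : ℝ} (hB : ∀ᵐ ω ∂μ, |f ω| ≤ B) (n : ℕ) :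
    Integrable (fun ω => f ω ^ n) μ := by
  apply Integrable.of_bound (hf.pow_const n).aestronglyMeasurable (B ^ n)
  filter_upwards [hB] with ω hω
  rw [Real.norm_eq_abs, abs_pow]
  exact pow_le_pow_left₀ (abs_nonneg _) hω n

/-- the functional `δ_(z 1) - δ_(z 0)` -/
theorem lf_energy {V : Type} {S : Finset V} {E : (V → ℝ) → ℝ} {K : ℕ} {Cg : ℝ} {z : Fin 2 → V}
    {lev : Fin 2 → V → ℕ} {ph : Fin 2 → ℕ → V → ℝ} (hg : AGeo S E K Cg z lev ph) (hK : 2 ≤ K)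
    (h : V → ℝ) : (h (z 1) - h (z 0)) ^ 2 ≤ 5 * Cg * (3 + 2 * K) * E h := by
  have hE := hg.nonneg h
  have hC := hg.one_le
  have a1 := hg.near 1 h
  have a5 := hg.near 0 h
  have a2 := hg.step 1 0 (K - 2) (Nat.zero_le _) (by omega) h
  have a4 := hg.step 0 0 (K - 2) (Nat.zero_le _) (by omega) h
  have a3 := hg.last h
  have hc : ((K - 2 : ℕ) : ℝ) = K - 2 := by
    rw [Nat.cast_sub hK]
    norm_num
  rw [hc] at a2 a4
  have hCE : 0 ≤ Cg * E h := mul_nonneg (by linarith) hE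
  have hK2 : (2 : ℝ) ≤ K := by exact_mod_cast hK
  have b2 : (pv S (ph 1 0) h - pv S (ph 1 (K - 2)) h) ^ 2 ≤ K * (Cg * E h) := by
    refine a2.trans ?_
    push_cast
    nlinarith
  have b4 : (pv S (ph 0 0) h - pv S (ph 0 (K - 2)) h) ^ 2 ≤ K * (Cg * E h) := by
    refine a4.trans ?_
    push_cast
    nlinarith
  set x1 := h (z 1) - pv S (ph 1 0) h
  set x2 := pv S (ph 1 0) h - pv S (ph 1 (K - 2)) h
  set x3 := pv S (ph 0 (K - 2)) h - pv S (ph 1 (K - 2)) h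
  set x4 := pv S (ph 0 0) h - pv S (ph 0 (K - 2)) h
  set x5 := h (z 0) - pv S (ph 0 0) h
  have he : h (z 1) - h (z 0) = x1 + x2 - x3 - x4 - x5 := by
    ring
  rw [he]
  have h5 : (x1 + x2 - x3 - x4 - x5) ^ 2 ≤ 5 * (x1 ^ 2 + x2 ^ 2 + x3 ^ 2 + x4 ^ 2 + x5 ^ 2) := by
    nlinarith [sq_nonneg (x1 - x2), sq_nonneg (x1 + x3), sq_nonneg (x1 + x4), sq_nonneg (x1 + x5),
      sq_nonneg (x2 + x3), sq_nonneg (x2 + x4), sq_nonneg (x2 + x5), sq_nonneg (x3 - x4),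
      sq_nonneg (x3 - x5), sq_nonneg (x4 - x5)]
  nlinarith

theorem lf_pow4 (a r : ℝ) : (a + r) ^ 4 ≤ 8 * a ^ 4 + 8 * r ^ 4 := by
  have h1 : (a + r) ^ 2 ≤ 2 * (a ^ 2 + r ^ 2) := by nlinarith [sq_nonneg (a - r)]
  have h2 : ((a + r) ^ 2) ^ 2 ≤ (2 * (a ^ 2 + r ^ 2)) ^ 2 := pow_le_pow_left₀ (sq_nonneg _) h1 2
  have h3 : (2 * (a ^ 2 + r ^ 2)) ^ 2 ≤ 8 * a ^ 4 + 8 * r ^ 4 := by
    nlinarith [sq_nonneg (a ^ 2 - r ^ 2)]
  have h4 : (a + r) ^ 4 = ((a + r) ^ 2) ^ 2 := by ring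
  linarith

/-- the constant -/
noncomputable def lf_C (Cs Cg D0 : ℝ) : ℝ :=
  6728 * (Cs * Cg ^ 2) + 8 * D0 ^ 4 + 2 * D0 ^ 2 + 250 * (Cs * Cg ^ 2)

theorem lf_sq4 {n : ℝ} (h0 : 0 ≤ n) (h1 : n ≤ 2) : n ^ 2 ≤ 4 := by nlinarith

theorem lf_numX {Cs Cg D0 K n I M : ℝ} (hCs : 1 ≤ Cs) (hCg : 1 ≤ Cg) (hK : 2 ≤ K) (hn0 : 0 ≤ n)
    (hn : n ≤ 2) (hI : I ≤ 8 * M + 8 * D0 ^ 4)
    (hM : M ≤ Cs * (5 * Cg * (3 + 2 * K) + n ^ 2) ^ 2) : I ≤ lf_C Cs Cg D0 * K ^ 2 := by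
  have h2 := lf_sq4 hn0 hn
  have hCK : 2 ≤ Cg * K := by nlinarith
  have h3 : 5 * Cg * (3 + 2 * K) + n ^ 2 ≤ 29 * Cg * K := by nlinarith
  have h0 : 0 ≤ 5 * Cg * (3 + 2 * K) + n ^ 2 := by positivity
  have h4 : (5 * Cg * (3 + 2 * K) + n ^ 2) ^ 2 ≤ (29 * Cg * K) ^ 2 := pow_le_pow_left₀ h0 h3 2
  have h5 : Cs * (5 * Cg * (3 + 2 * K) + n ^ 2) ^ 2 ≤ Cs * (29 * Cg * K) ^ 2 :=
    mul_le_mul_of_nonneg_left h4 (by linarith)
  have h6 : Cs * (29 * Cg * K) ^ 2 = 841 * (Cs * Cg ^ 2) * K ^ 2 := by ring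
  have h7 : 1 ≤ K ^ 2 := by nlinarith
  have h8 : 8 * D0 ^ 4 * 1 ≤ 8 * D0 ^ 4 * K ^ 2 := mul_le_mul_of_nonneg_left h7 (by positivity)
  have h9 : 0 ≤ (2 * D0 ^ 2 + 250 * (Cs * Cg ^ 2)) * K ^ 2 := by positivity
  have h10 : lf_C Cs Cg D0 * K ^ 2 = 8 * (841 * (Cs * Cg ^ 2) * K ^ 2) + 8 * D0 ^ 4 * K ^ 2 +
      (2 * D0 ^ 2 + 250 * (Cs * Cg ^ 2)) * K ^ 2 := by
    unfold lf_C
    ring
  rw [h10]
  linarith

theorem lf_CC {Cs Cg : ℝ} (hCs : 1 ≤ Cs) (hCg : 1 ≤ Cg) : 1 ≤ Cs * Cg ^ 2 ∧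
    Cs * Cg ≤ Cs * Cg ^ 2 := by
  have h1 : Cg ≤ Cg ^ 2 := by nlinarith
  have h2 : Cs * Cg ≤ Cs * Cg ^ 2 := mul_le_mul_of_nonneg_left h1 (by linarith)
  exact ⟨by nlinarith, h2⟩

theorem lf_num2 {Cs Cg D0 x n I : ℝ} (hCs : 1 ≤ Cs) (hCg : 1 ≤ Cg) (hx : 1 ≤ x) (hn0 : 0 ≤ n)
    (hn : n ≤ 2) (hI : I ≤ Cs * (Cg * x + n ^ 2)) : I ≤ lf_C Cs Cg D0 * x := by
  have h2 := lf_sq4 hn0 hn
  have hC := lf_CC hCs hCg
  have hCx : 1 ≤ Cg * x := by nlinarith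
  have h3 : Cg * x + n ^ 2 ≤ 5 * (Cg * x) := by linarith
  have h4 := mul_le_mul_of_nonneg_left h3 (by linarith : 0 ≤ Cs)
  have h5 : 5 * (Cs * Cg) ≤ lf_C Cs Cg D0 := by
    unfold lf_C
    have h6 : 0 ≤ D0 ^ 4 := by positivity
    have h7 : 0 ≤ D0 ^ 2 := by positivity
    linarith [hC.1, hC.2]
  have h6 := mul_le_mul_of_nonneg_right h5 (by linarith : 0 ≤ x)
  have h7 : Cs * (5 * (Cg * x)) = 5 * (Cs * Cg) * x := by ring
  linarith

theorem lf_num4 {Cs Cg D0 x n I : ℝ} (hCs : 1 ≤ Cs) (hCg : 1 ≤ Cg) (hx : 1 ≤ x) (hn0 : 0 ≤ n)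
    (hn : n ≤ 2) (hI : I ≤ Cs * (Cg * x + n ^ 2) ^ 2) : I ≤ lf_C Cs Cg D0 * x ^ 2 := by
  have h2 := lf_sq4 hn0 hn
  have hC := lf_CC hCs hCg
  have hCx : 1 ≤ Cg * x := by nlinarith
  have h3 : Cg * x + n ^ 2 ≤ 5 * (Cg * x) := by linarith
  have h4 : (Cg * x + n ^ 2) ^ 2 ≤ (5 * (Cg * x)) ^ 2 :=
    pow_le_pow_left₀ (by positivity) h3 2
  have h5 := mul_le_mul_of_nonneg_left h4 (by linarith : 0 ≤ Cs)
  have h6 : 25 * (Cs * Cg ^ 2) ≤ lf_C Cs Cg D0 := by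
    unfold lf_C
    have h6 : 0 ≤ D0 ^ 4 := by positivity
    have h7 : 0 ≤ D0 ^ 2 := by positivity
    linarith [hC.1, hC.2]
  have h7 := mul_le_mul_of_nonneg_right h6 (by positivity : 0 ≤ x ^ 2)
  have h8 : Cs * (5 * (Cg * x)) ^ 2 = 25 * (Cs * Cg ^ 2) * x ^ 2 := by ring
  linarith

theorem lf_numR {Cs Cg D0 G J n I M : ℝ} (hCs : 1 ≤ Cs) (hCg : 1 ≤ Cg) (hJ : 2 ≤ J)
    (hG : J ^ 2 ≤ G) (hn0 : 0 ≤ n) (hn : n ≤ 5 * J) (hI : I ≤ 2 * M + 2 * D0 ^ 2)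
    (hM : M ≤ Cs * (100 * Cg * G + n ^ 2)) : I ≤ lf_C Cs Cg D0 * G := by
  have hC := lf_CC hCs hCg
  have h1 : n ^ 2 ≤ 25 * J ^ 2 := by nlinarith
  have hG2 : 1 ≤ G := by nlinarith
  have hGG : G ≤ Cg * G := by nlinarith
  have h3 : 100 * Cg * G + n ^ 2 ≤ 125 * (Cg * G) := by linarith
  have h4 := mul_le_mul_of_nonneg_left h3 (by linarith : 0 ≤ Cs)
  have h5 : Cs * (125 * (Cg * G)) = 125 * ((Cs * Cg) * G) := by ring
  have h6 : (Cs * Cg) * G ≤ (Cs * Cg ^ 2) * G :=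
    mul_le_mul_of_nonneg_right hC.2 (by linarith)
  have h7 : 2 * D0 ^ 2 * 1 ≤ 2 * D0 ^ 2 * G := mul_le_mul_of_nonneg_left hG2 (by positivity)
  have h8 : 0 ≤ (6728 * (Cs * Cg ^ 2) + 8 * D0 ^ 4) * G := by positivity
  have h9 : lf_C Cs Cg D0 * G = (6728 * (Cs * Cg ^ 2) + 8 * D0 ^ 4) * G + 2 * D0 ^ 2 * G +
      250 * ((Cs * Cg ^ 2) * G) := by
    unfold lf_C
    ring
  rw [h9]
  linarith

/-- the central limit theorem on a network with averages -/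
theorem abs_clt {Cg Cs κ D0 : ℝ} (hCg : 1 ≤ Cg) (hCs : 1 ≤ Cs) (hκ : 0 < κ) (hD0 : 0 ≤ D0) (τ : ℝ)
    {δ : ℝ} (hδ : 0 < δ) : ∃ (J : ℕ) (T0 ε : ℝ) (K0 : ℕ), 2 ≤ J ∧ 0 ≤ T0 ∧ 0 < ε ∧
    ∀ {V : Type} {S : Finset V} {E : (V → ℝ) → ℝ} {K : ℕ} {z : Fin 2 → V}
      {lev : Fin 2 → V → ℕ} {ph : Fin 2 → ℕ → V → ℝ}, AGeo S E K Cg z lev ph → K0 ≤ K →
    ∀ {Ω : Type} [MeasurableSpace Ω] {μ : Measure Ω} [IsProbabilityMeasure μ]
      {Y : Ω → V → ℝ} {X : Ω → ℝ}, (∀ k ∈ S, Measurable fun ω => Y ω k) → Measurable X →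
      (∃ B : ℝ, ∀ᵐ ω ∂μ, ∀ k ∈ S, |Y ω k| ≤ B) →
      (∀ᵐ ω ∂μ, |X ω - (Y ω (z 1) - Y ω (z 0))| ≤ D0) → ∫ ω, X ω ∂μ = 0 →
      (∀ k ∈ S, ∫ ω, Y ω k ∂μ = 0) →
      (∀ (l : V → ℝ) (R : ℝ), 0 ≤ R → (∀ h, pv S l h ^ 2 ≤ R * E h) →
        ∫ ω, pv S l (Y ω) ^ 2 ∂μ ≤ Cs * (R + n1 S l ^ 2) ∧
          ∫ ω, pv S l (Y ω) ^ 4 ∂μ ≤ Cs * (R + n1 S l ^ 2) ^ 2) →
      κ * K ≤ ∫ ω, X ω ^ 2 ∂μ →
      (∀ (s : Fin 2) (ki ko : ℕ), ki ≤ ko → ko ≤ K → (K : ℝ) / (2 * J ^ 5) ≤ (ko : ℝ) - ki →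
        ∀ lin lout : V → ℝ, (∀ y, lin y ≠ 0 → y ∈ S ∧ lev s y ≤ 2 ^ ki) → ∑ y ∈ S, lin y = 0 →
        n1 S lin ≤ 2 → (∀ y, lout y ≠ 0 → y ∈ S ∧ 2 ^ ko ≤ lev s y) → n1 S lout ≤ 4 * J →
        (∀ h, pv S lout h ^ 2 ≤ 4 * J * Cg * K * E h) → ∀ t : ℝ, |t| ≤ T0 / Real.sqrt K →
        ∀ u F : ℝ → ℝ, (u = Real.cos ∨ u = Real.sin) → (F = Real.cos ∨ F = Real.sin) →
        |∫ ω, u (t * pv S lout (Y ω)) * F (t * pv S lin (Y ω)) ∂μ -
          (∫ ω, u (t * pv S lout (Y ω)) ∂μ) * ∫ ω, F (t * pv S lin (Y ω)) ∂μ| ≤ ε) →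
      ‖∫ ω, Complex.exp ((τ / Real.sqrt (∫ ω, X ω ^ 2 ∂μ) * X ω : ℝ) * Complex.I) ∂μ -
        (Real.exp (-(τ ^ 2 / 2)) : ℝ)‖ ≤ δ := by
  classical
  have hC : 1 ≤ lf_C Cs Cg D0 := by
    unfold lf_C
    have h6 : 0 ≤ D0 ^ 4 := by positivity
    have h7 : 0 ≤ D0 ^ 2 := by positivity
    linarith [(lf_CC hCs hCg).1]
  obtain ⟨J, ε', T, K1, hJ, hε', hT, hclt⟩ := clt_limit hC hκ τ hδ
  obtain ⟨K2, hblk⟩ := blk_exist J hJ
  have hJ2 : (2 : ℝ) ≤ J := by exact_mod_cast hJ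
  have hJ0 : (0 : ℝ) < J := by linarith
  refine ⟨J, T, ε' / (8 * J), max (max K1 K2) (max J 2), hJ, hT, by positivity, ?_⟩
  intro V S E K z lev ph hgeo hK0 Ω _ μ _ Y X hYm hXm hYb hXY hX0 hY0 hsg hκK hdec
  have hKK1 : K1 ≤ K := ((le_max_left _ _).trans (le_max_left _ _)).trans hK0
  have hKK2 : K2 ≤ K := ((le_max_right _ _).trans (le_max_left _ _)).trans hK0
  have hKJ : J ≤ K := ((le_max_left _ _).trans (le_max_right _ _)).trans hK0
  have hK2 : 2 ≤ K := ((le_max_right _ _).trans (le_max_right _ _)).trans hK0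
  have hK2r : (2 : ℝ) ≤ K := by exact_mod_cast hK2
  have hKJr : (J : ℝ) ≤ K := by exact_mod_cast hKJ
  have hK0r : (0 : ℝ) < K := by linarith
  have hKJ1 : 1 ≤ (K : ℝ) / J := by
    rw [le_div_iff₀ hJ0]
    linarith
  obtain ⟨l, s, ki, ko, hb⟩ := hblk hgeo hKK2
  obtain ⟨B, hB⟩ := hYb
  have hmem := hgeo.mem
  -- the functional W
  set lW : V → ℝ := fun k => lf_d (z 1) k - lf_d (z 0) k with hlW
  have hpW : ∀ h : V → ℝ, pv S lW h = h (z 1) - h (z 0) := by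
    intro h
    rw [hlW, lf_sub, lf_pv_d S (hmem 1), lf_pv_d S (hmem 0)]
  have hnW : n1 S lW ≤ 2 := by
    have h1 := lf_n1_sub S (lf_d (z 1)) (lf_d (z 0))
    have h2 := lf_n1_d S (z 1)
    have h3 := lf_n1_d S (z 0)
    linarith
  have hsW := hsg lW (5 * Cg * (3 + 2 * K)) (by positivity)
    (fun h => by rw [hpW h]; exact lf_energy hgeo hK2 h)
  -- the rest
  set lR : V → ℝ := fun k => lW k - ∑ i, l i k with hlR
  have hpR : ∀ h : V → ℝ, pv S lR h = h (z 1) - h (z 0) - ∑ i, pv S (l i) h := by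
    intro h
    rw [hlR, lf_sub, hpW, lf_sum]
  have hnR : n1 S lR ≤ 5 * J := by
    have h1 := lf_n1_sub S lW (fun k => ∑ i, l i k)
    have h2 := lf_n1_sum S Finset.univ l
    have h3 : ∑ i, n1 S (l i) ≤ ∑ i : Fin (2 * J), (2 : ℝ) :=
      Finset.sum_le_sum (fun i _ => hb.norm i)
    rw [Finset.sum_const, Finset.card_univ, Fintype.card_fin, nsmul_eq_mul] at h3
    push_cast at h3
    linarith
  have hsR := hsg lR (100 * Cg * ((K : ℝ) / J ^ 3 + (J : ℝ) ^ 2)) (by positivity)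
    (fun h => by rw [hpR h]; exact hb.rest h)
  -- bounds and integrability
  have hWb := lf_bdd hB lW
  have hRb := lf_bdd hB lR
  have hXb : ∀ᵐ ω ∂μ, |X ω| ≤ D0 + n1 S lW * B := by
    filter_upwards [hXY, hWb] with ω h1 h2
    rw [hpW] at h2
    have h3 : X ω = (X ω - (Y ω (z 1) - Y ω (z 0))) + (Y ω (z 1) - Y ω (z 0)) := by ring
    rw [h3]
    exact (abs_add_le _ _).trans (add_le_add h1 h2)
  have hDm : ∀ i, Measurable (fun ω => pv S (l i) (Y ω)) := fun i => lf_meas hYm (l i)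
  have hYint : ∀ k ∈ S, Integrable (fun ω => Y ω k) μ := by
    intro k hk
    apply Integrable.of_bound (hYm k hk).aestronglyMeasurable B
    filter_upwards [hB] with ω hω
    exact hω k hk
  apply hclt X (fun i ω => pv S (l i) (Y ω)) K hKK1 (by omega) hXm hDm
    (lf_int hXm hXb 4) (fun i => lf_int (hDm i) (lf_bdd hB (l i)) 4) hX0
  · intro i
    unfold pv
    rw [integral_finsetSum _ (fun k hk => (hYint k hk).const_mul _)]
    apply Finset.sum_eq_zero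
    intro k hk
    rw [integral_const_mul, hY0 k hk, mul_zero]
  · exact hκK
  · -- fourth moment of X
    have h1 : ∫ ω, X ω ^ 4 ∂μ ≤ ∫ ω, (8 * (pv S lW (Y ω)) ^ 4 + 8 * D0 ^ 4) ∂μ := by
      apply integral_mono_ae (lf_int hXm hXb 4)
        (((lf_int (lf_meas hYm lW) hWb 4).const_mul 8).add (integrable_const _))
      filter_upwards [hXY] with ω hω
      change X ω ^ 4 ≤ 8 * pv S lW (Y ω) ^ 4 + 8 * D0 ^ 4
      rw [hpW]
      set a := Y ω (z 1) - Y ω (z 0)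
      set r := X ω - a with hr
      have h2 : X ω = a + r := by rw [hr]; ring
      have h3 : r ^ 4 ≤ D0 ^ 4 := by
        calc r ^ 4 = |r| ^ 4 := by rw [← abs_pow, abs_of_nonneg (by positivity)]
          _ ≤ D0 ^ 4 := pow_le_pow_left₀ (abs_nonneg _) hω 4
      have h4 := lf_pow4 a r
      rw [h2]
      linarith
    rw [integral_add ((lf_int (lf_meas hYm lW) hWb 4).const_mul 8) (integrable_const _),
      integral_const_mul, integral_const, probReal_univ, one_smul] at h1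
    exact lf_numX hCs hCg hK2r (lf_n1_nonneg S lW) hnW h1 hsW.2
  · -- second moments
    intro i
    exact lf_num2 hCs hCg hKJ1 (lf_n1_nonneg S (l i)) (hb.norm i)
      (hsg (l i) (Cg * (K / J)) (by positivity) (hb.energy i)).1
  · -- fourth moments
    intro i
    exact lf_num4 hCs hCg hKJ1 (lf_n1_nonneg S (l i)) (hb.norm i)
      (hsg (l i) (Cg * (K / J)) (by positivity) (hb.energy i)).2
  · -- the remainder
    have h1 : ∫ ω, (X ω - ∑ i, pv S (l i) (Y ω)) ^ 2 ∂μ ≤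
        ∫ ω, (2 * (pv S lR (Y ω)) ^ 2 + 2 * D0 ^ 2) ∂μ := by
      have hm : Measurable (fun ω => X ω - ∑ i, pv S (l i) (Y ω)) :=
        hXm.sub (Finset.measurable_fun_sum _ (fun i _ => hDm i))
      have hbd : ∀ᵐ ω ∂μ, |X ω - ∑ i, pv S (l i) (Y ω)| ≤ D0 + n1 S lR * B := by
        filter_upwards [hXY, hRb] with ω h1 h2
        rw [hpR] at h2
        have h3 : X ω - ∑ i, pv S (l i) (Y ω) = (X ω - (Y ω (z 1) - Y ω (z 0))) +
          (Y ω (z 1) - Y ω (z 0) - ∑ i, pv S (l i) (Y ω)) := by ring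
        rw [h3]
        exact (abs_add_le _ _).trans (add_le_add h1 h2)
      apply integral_mono_ae (lf_int hm hbd 2)
        (((lf_int (lf_meas hYm lR) hRb 2).const_mul 2).add (integrable_const _))
      filter_upwards [hXY] with ω hω
      change (X ω - ∑ i, pv S (l i) (Y ω)) ^ 2 ≤ 2 * pv S lR (Y ω) ^ 2 + 2 * D0 ^ 2
      rw [hpR]
      have h3 : (X ω - (Y ω (z 1) - Y ω (z 0))) ^ 2 ≤ D0 ^ 2 := by
        rw [← sq_abs]
        exact pow_le_pow_left₀ (abs_nonneg _) hω 2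
      set r := X ω - (Y ω (z 1) - Y ω (z 0)) with hr
      set q := Y ω (z 1) - Y ω (z 0) - ∑ i, pv S (l i) (Y ω) with hq
      have h4 : X ω - ∑ i, pv S (l i) (Y ω) = r + q := by rw [hr, hq]; ring
      rw [h4]
      nlinarith [sq_nonneg (r - q)]
    rw [integral_add ((lf_int (lf_meas hYm lR) hRb 2).const_mul 2) (integrable_const _),
      integral_const_mul, integral_const, probReal_univ, one_smul] at h1
    have hG1 : (J : ℝ) ^ 2 ≤ (K : ℝ) / J ^ 3 + (J : ℝ) ^ 2 := by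
      have : 0 ≤ (K : ℝ) / J ^ 3 := by positivity
      linarith
    exact lf_numR hCs hCg hJ2 hG1 (lf_n1_nonneg S lR) hnR h1 hsR.1
  · -- the factorisation
    intro t ht
    have hη : 4 * ((2 * J : ℕ) : ℝ) * (ε' / (8 * J)) = ε' := by
      push_cast
      field_simp
      ring
    have hp := peel2 (μ := μ) (2 * J) (fun i ω => t * pv S (l i) (Y ω))
      (fun i => (hDm i).const_mul t) (ε' / (8 * J)) ?_
    · rw [hη] at hp
      have h1 : ∀ ω, t * ∑ i, pv S (l i) (Y ω) = ∑ i, t * pv S (l i) (Y ω) := by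
        intro ω
        rw [Finset.mul_sum]
      simp only [h1]
      exact hp
    · intro i u F hu hF
      set I := Finset.univ.filter (fun j : Fin (2 * J) => i < j) with hI
      have hd := hdec (s i) (ki i) (ko i) (hb.scale i).1 (hb.scale i).2.1 (hb.scale i).2.2
        (l i) (fun k => ∑ j ∈ I, l j k) (hb.inner i) (hb.sum i) (hb.norm i) ?_ ?_ ?_ t ht u F hu hF
      · have h1 : ∀ ω, t * pv S (fun k => ∑ j ∈ I, l j k) (Y ω) =
            ∑ j ∈ I, t * pv S (l j) (Y ω) := by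
          intro ω
          rw [lf_sum, Finset.mul_sum]
        simp only [h1] at hd
        exact hd
      · intro y hy
        obtain ⟨j, hj, hj1⟩ := Finset.exists_ne_zero_of_sum_ne_zero hy
        rw [hI, Finset.mem_filter] at hj
        exact ⟨(hb.inner j y hj1).1, hb.outer i j hj.2 y hj1⟩
      · refine (lf_n1_sum S I l).trans ?_
        calc ∑ j ∈ I, n1 S (l j) ≤ ∑ j ∈ I, (2 : ℝ) := Finset.sum_le_sum (fun j _ => hb.norm j)
          _ = (I.card : ℝ) * 2 := by rw [Finset.sum_const, nsmul_eq_mul]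
          _ ≤ ((2 * J : ℕ) : ℝ) * 2 := by
              apply mul_le_mul_of_nonneg_right _ (by norm_num)
              have := Finset.card_le_univ I
              rw [Fintype.card_fin] at this
              exact_mod_cast this
          _ = 4 * J := by push_cast; ring
      · intro h
        rw [lf_sum]
        have hcard : (I.card : ℝ) ≤ 2 * J := by
          have := Finset.card_le_univ I
          rw [Fintype.card_fin] at this
          exact_mod_cast this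
        have hE := hgeo.nonneg h
        have hQ : 0 ≤ Cg * (K / J) * E h := by positivity
        calc (∑ j ∈ I, pv S (l j) h) ^ 2 ≤ (I.card : ℝ) * ∑ j ∈ I, pv S (l j) h ^ 2 :=
              sq_sum_le_card_mul_sum_sq
          _ ≤ (I.card : ℝ) * ∑ j ∈ I, Cg * (K / J) * E h :=
              mul_le_mul_of_nonneg_left (Finset.sum_le_sum (fun j _ => hb.energy j h))
                (Nat.cast_nonneg _)
          _ = (I.card : ℝ) * ((I.card : ℝ) * (Cg * (K / J) * E h)) := by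
              rw [Finset.sum_const, nsmul_eq_mul]
          _ ≤ (2 * J) * ((2 * J) * (Cg * (K / J) * E h)) := by
              apply mul_le_mul hcard _ (by positivity) (by positivity)
              exact mul_le_mul_of_nonneg_right hcard hQ
          _ = 4 * J * Cg * K * E h := by
              field_simp
              ring

end HK
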