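import Mathlib
import Pool.Agent.Lib_helper69.HKL.DefsL
import Pool.Agent.Lib_helper12.HK.DefsE
import Pool.Agent.Lib_helper12.HK.DefsG
import Pool.Agent.Lib_helper12.HK.W.ic
import Pool.Agent.Lib_helper12.HK.W.ik
import Pool.Agent.Lib_helper14.HKC.Final
import Pool.Agent.Lib_helper69.HKK.FinalK

/-!
# Project HK (MP_5fc650_pr): the four inputs of the central limit theorem, `HK.hyp_exists`
(Parts C and D), `HK.moments_h` (Part G), `HK.decouple_h` (Part I), `HK.lower_h` (Part K)
-/
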